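import Pool.Agent.Work.MP_db9399_vt_helper94.OwnA

/-! # MP_db9399 PHASE 2, block OWN (helper94) -/

set_option autoImplicit false

namespace Pool.Agent.Work.MP_db9399_vt.helper94

open Finset Classical
open Pool.Agent.Work.MP_db9399_all (nb mis)
open Pool.Agent.Work.MP_db9399_px (ee)
open Pool.Agent.Work.MP_db9399_bg (den cl mem_nb mem_cl)
open Pool.Agent.Work.MP_db9399_sl (InS Same Gout Nsc)
open Pool.Agent.Work.MP_db9399_vt

universe u

/-- large `d` -/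
theorem nums (N : ℕ) (s a : ℝ) (hs : 0 < s) (ha : 0 < a) : ∃ d0 : ℕ, ∀ d : ℕ, d0 ≤ d →
    (N : ℝ) * Real.log d ^ 2 ≤ s * d ∧ 2 * (N : ℝ) ≤ s * d ∧ (N : ℝ) ≤ Real.log d ∧
      1 ≤ Real.log d ∧ 2000 ≤ a * Real.log d ^ 3 ∧ 3 ≤ d := by
  have h1 : ∀ᶠ x : ℝ in Filter.atTop, ‖Real.log x ^ 2‖ ≤ (s / (N + 1)) * ‖(id x : ℝ)‖ :=
    (Real.isLittleO_pow_log_id_atTop (n := 2)).def (by positivity)
  have h2 : ∀ᶠ x : ℝ in Filter.atTop, (N : ℝ) + 2000 / a + 1 ≤ Real.log x :=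
    Real.tendsto_log_atTop.eventually_ge_atTop _
  have h3 : ∀ᶠ x : ℝ in Filter.atTop, 2 * (N : ℝ) / s + 3 ≤ x := Filter.eventually_ge_atTop _
  obtain ⟨X, hX⟩ := Filter.eventually_atTop.1 (h1.and (h2.and h3))
  refine ⟨⌈X⌉₊, fun d hd => ?_⟩
  have hdX : X ≤ d := (Nat.le_ceil X).trans (by exact_mod_cast hd)
  obtain ⟨k1, k2, k3⟩ := hX d hdX
  have hN0 : (0 : ℝ) ≤ N := Nat.cast_nonneg _
  have ha0 : 0 < 2000 / a := by positivity
  have hq0 : 0 ≤ 2 * (N : ℝ) / s := by positivity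
  have hl1 : 1 ≤ Real.log d := by linarith
  refine ⟨?_, ?_, by linarith, hl1, ?_, ?_⟩
  · rw [Real.norm_of_nonneg (by positivity), id, Real.norm_of_nonneg (Nat.cast_nonneg _)] at k1
    have h4 := mul_le_mul_of_nonneg_left k1 (by positivity : (0 : ℝ) ≤ N + 1)
    have h5 : ((N : ℝ) + 1) * (s / (N + 1) * d) = s * d := by field_simp
    have h6 : 0 ≤ Real.log (d : ℝ) ^ 2 := by positivity
    nlinarith only [h4, h5, h6]
  · have h4 : 2 * (N : ℝ) / s ≤ d := by linarith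
    rw [div_le_iff₀ hs] at h4
    linarith
  · have h4 : 2000 / a ≤ Real.log d := by linarith
    rw [div_le_iff₀ ha] at h4
    have h5 : Real.log (d : ℝ) ≤ Real.log d ^ 3 := by
      have h6 : (1 : ℝ) ≤ Real.log d ^ 2 := by nlinarith only [hl1]
      nlinarith only [h6, hl1]
    nlinarith only [h4, h5, ha]
  · have : (3 : ℝ) ≤ d := by linarith
    exact_mod_cast this

section
variable {V : Type u} [Fintype V]

theorem tst_up {T : Type} [Fintype T] {lab : V → T} {d N : ℕ} {s : ℝ} {S : Finset V}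
    {P : Finset T} (hN : 0 < N) (hs : 0 ≤ s) (h : Tst lab d (s / (N : ℝ) ^ 2) S)
    (hP : den P = 1 / (N : ℝ)) :
    (N : ℝ) * ((S ∩ cl lab P).card : ℝ) ≤ (1 + s) * S.card + N * Real.log d ^ 2 := by
  have h1 := (abs_le.mp (h P)).2
  rw [hP] at h1
  have hN1 : (1 : ℝ) ≤ N := by exact_mod_cast hN
  have hN0 : (0 : ℝ) < N := by linarith
  have h2 : ((S ∩ cl lab P).card : ℝ) ≤ 1 / N * S.card + s / (N : ℝ) ^ 2 * S.card +
      Real.log d ^ 2 := by linarith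
  have h3 := mul_le_mul_of_nonneg_left h2 hN0.le
  have h4 : (N : ℝ) * (1 / N * S.card + s / (N : ℝ) ^ 2 * S.card + Real.log d ^ 2) =
      S.card + s / N * S.card + N * Real.log d ^ 2 := by field_simp
  have h5 : s / N ≤ s := div_le_self hs hN1
  have h6 : s / N * (S.card : ℝ) ≤ s * S.card :=
    mul_le_mul_of_nonneg_right h5 (Nat.cast_nonneg _)
  linarith

theorem tst_lo {T : Type} [Fintype T] {lab : V → T} {d N : ℕ} {s : ℝ} {S : Finset V}
    {P : Finset T} (hN : 0 < N) (hs : 0 ≤ s) (h : Tst lab d (s / (N : ℝ) ^ 2) S)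
    (hP : den P = 1 / (N : ℝ)) :
    (1 - s) * S.card ≤ (N : ℝ) * ((S ∩ cl lab P).card : ℝ) + N * Real.log d ^ 2 := by
  have h1 := (abs_le.mp (h P)).1
  rw [hP] at h1
  have hN1 : (1 : ℝ) ≤ N := by exact_mod_cast hN
  have hN0 : (0 : ℝ) < N := by linarith
  have h2 : 1 / N * (S.card : ℝ) ≤ ((S ∩ cl lab P).card : ℝ) + s / (N : ℝ) ^ 2 * S.card +
      Real.log d ^ 2 := by linarith
  have h3 := mul_le_mul_of_nonneg_left h2 hN0.le
  have h4 : (N : ℝ) * (1 / N * S.card) = S.card := by field_simp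
  have h4' : (N : ℝ) * (((S ∩ cl lab P).card : ℝ) + s / (N : ℝ) ^ 2 * S.card +
      Real.log d ^ 2) = N * ((S ∩ cl lab P).card : ℝ) + s / N * S.card +
      N * Real.log d ^ 2 := by field_simp
  have h5 : s / N ≤ s := div_le_self hs hN1
  have h6 : s / N * (S.card : ℝ) ≤ s * S.card :=
    mul_le_mul_of_nonneg_right h5 (Nat.cast_nonneg _)
  linarith

/-- the local sparsity of the outer vertices inside their class -/
theorem sps_class {T : Type} [Fintype T] {g s κ' : ℝ} {G GO : SimpleGraph V} {d N : ℕ}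
    {Ys : Finset (Finset V)} {UH : Finset V} {lab : V → T} {P : Finset T}
    (hg : 0 < g) (hg1 : g ≤ 1 / 10) (hd : 0 < d) (hN : 0 < N) (hs : 0 < s)
    (hs1 : s ≤ κ' / 8) (hs2 : s ≤ g ^ 2 / 32 / 16) (hκ : κ' ≤ g ^ 2 / 32 / 100)
    (hNd : 2 * (N : ℝ) ≤ s * d)
    (hdeg : ∀ v, (nb G v).card ≤ d) (hnsc : Nsc g (Gout G Ys) d)
    (hGO : ∀ v w, GO.Adj v w ↔ G.Adj v w ∧ v ∈ outer Ys ∧ w ∈ outer Ys)
    (htwo : ∀ v, (nb G v ∩ UH).card ≤ 2)
    (hlab1 : ∀ v (R : Finset T), |((nb GO v ∩ cl lab R).card : ℝ) - den R * (nb GO v).card| ≤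
      s / (N : ℝ) ^ 2 * d)
    (hlab2 : ∀ v (R : Finset T), ee GO (nb GO v ∩ cl lab R) (nb GO v ∩ cl lab R) ≤
      den R ^ 2 * ee GO (nb GO v) (nb GO v) + s / (N : ℝ) ^ 2 * (d : ℝ) ^ 2)
    (hP : den P = 1 / (N : ℝ)) (w : V) (hw : w ∈ outer Ys) (M : Finset V)
    (hM : ∀ x, x ∈ M ↔ G.Adj w x ∧ x ∈ outer Ys ∧ x ∉ UH ∧ lab x ∈ P) :
    (N : ℝ) * (M.card : ℝ) ≤ (1 - κ') * d ∨
      g ^ 2 / 32 * (d : ℝ) ^ 2 ≤ (N : ℝ) ^ 2 * ((mis G M).card : ℝ) := by
  have hN1 : (1 : ℝ) ≤ N := by exact_mod_cast hN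
  have hN0 : (0 : ℝ) < N := by linarith
  have hdR : (0 : ℝ) < d := by exact_mod_cast hd
  have hκ0 : 0 < κ' := by linarith
  obtain ⟨A, hA⟩ : ∃ A, A = nb GO w ∩ cl lab P := ⟨_, rfl⟩
  have hAm : ∀ x, x ∈ A ↔ GO.Adj w x ∧ lab x ∈ P := by
    intro x
    rw [hA, mem_inter, mem_nb, mem_cl]
  have hMA : M ⊆ A := by
    intro x hx
    rw [hM] at hx
    rw [hAm, hGO]
    exact ⟨⟨hx.1, hw, hx.2.1⟩, hx.2.2.2⟩
  have hAM : A.card ≤ M.card + 2 := by
    have h1 : A ⊆ M ∪ (nb G w ∩ UH) := by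
      intro x hx
      rw [hAm, hGO] at hx
      rw [mem_union, hM, mem_inter, mem_nb]
      by_cases hxU : x ∈ UH
      · exact Or.inr ⟨hx.1.1, hxU⟩
      · exact Or.inl ⟨hx.1.1, hx.1.2.2, hxU, hx.2⟩
    have h2 := (card_le_card h1).trans (card_union_le _ _)
    have h3 := htwo w
    omega
  have hdegA := hlab1 w P
  rw [hP, ← hA] at hdegA
  obtain ⟨hl, hu⟩ := abs_le.mp hdegA
  have hnbd : ((nb GO w).card : ℝ) ≤ d := by
    have : (nb GO w).card ≤ d := by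
      refine le_trans (card_le_card ?_) (hdeg w)
      intro x hx
      rw [mem_nb] at hx ⊢
      exact ((hGO w x).mp hx).1
    exact_mod_cast this
  have hNs : (N : ℝ) * (s / (N : ℝ) ^ 2 * d) ≤ s * d := by
    have h1 : (N : ℝ) * (s / (N : ℝ) ^ 2 * d) = s / N * d := by field_simp
    rw [h1]
    exact mul_le_mul_of_nonneg_right (div_le_self hs.le hN1) hdR.le
  have hup : (N : ℝ) * A.card ≤ (nb GO w).card + s * d := by
    have h1 := mul_le_mul_of_nonneg_left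
      (by linarith : (A.card : ℝ) ≤ 1 / N * (nb GO w).card + s / (N : ℝ) ^ 2 * d) hN0.le
    have h2 : (N : ℝ) * (1 / N * (nb GO w).card + s / (N : ℝ) ^ 2 * d) =
        (nb GO w).card + N * (s / (N : ℝ) ^ 2 * d) := by field_simp
    linarith
  have hlo : ((nb GO w).card : ℝ) ≤ N * A.card + s * d := by
    have h1 := mul_le_mul_of_nonneg_left
      (by linarith : 1 / N * ((nb GO w).card : ℝ) ≤ A.card + s / (N : ℝ) ^ 2 * d) hN0.le
    have h2 : (N : ℝ) * (1 / N * ((nb GO w).card : ℝ)) = (nb GO w).card := by field_simp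
    have h3 : (N : ℝ) * (A.card + s / (N : ℝ) ^ 2 * d) =
        N * A.card + N * (s / (N : ℝ) ^ 2 * d) := by ring
    linarith
  have hMAr : (M.card : ℝ) ≤ A.card := by exact_mod_cast card_le_card hMA
  have hAMr : (A.card : ℝ) ≤ M.card + 2 := by exact_mod_cast hAM
  by_cases hcase : ((nb GO w).card : ℝ) ≤ (1 - 2 * κ') * d
  · left
    have h1 := mul_le_mul_of_nonneg_left hMAr hN0.le
    have h2 : s * d ≤ κ' * d := mul_le_mul_of_nonneg_right (by linarith) hdR.le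
    nlinarith only [h1, h2, hup, hcase]
  · right
    push Not at hcase
    have h1 := mis_ge G M
    have h2 : ee G M M ≤ ee GO A A := by
      have h3 : ∀ x ∈ M, ((nb G x ∩ M).card : ℝ) ≤ ((nb GO x ∩ A).card : ℝ) := by
        intro x hx
        have : nb G x ∩ M ⊆ nb GO x ∩ A := by
          intro y hy
          rw [mem_inter, mem_nb] at hy ⊢
          refine ⟨?_, hMA hy.2⟩
          rw [hGO]
          exact ⟨hy.1, ((hM x).mp hx).2.1, ((hM y).mp hy.2).2.1⟩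
        exact_mod_cast card_le_card this
      unfold ee
      refine (sum_le_sum h3).trans (sum_le_sum_of_subset_of_nonneg hMA ?_)
      intro _ _ _
      positivity
    have h3 := hlab2 w P
    rw [hP, ← hA] at h3
    have h4 := sparse_of_nsc hg hg1 hd hdeg hnsc hGO w
    have h5 : (N : ℝ) ^ 2 * ee G M M ≤ (1 - g ^ 2 / 16 + s) * (d : ℝ) ^ 2 := by
      have h6 := mul_le_mul_of_nonneg_left (h2.trans h3) (by positivity : (0 : ℝ) ≤ (N : ℝ) ^ 2)
      have h7 : (N : ℝ) ^ 2 * ((1 / (N : ℝ)) ^ 2 * ee GO (nb GO w) (nb GO w) +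
          s / (N : ℝ) ^ 2 * (d : ℝ) ^ 2) = ee GO (nb GO w) (nb GO w) + s * (d : ℝ) ^ 2 := by
        field_simp
      nlinarith only [h6, h7, h4]
    have hX : (1 - 2 * κ' - 2 * s) * d ≤ N * (M.card : ℝ) := by
      have h6 := mul_le_mul_of_nonneg_left hAMr hN0.le
      nlinarith only [h6, hlo, hcase, hNd]
    have hX2 : (N : ℝ) * (M.card : ℝ) ≤ 2 * d := by
      have h6 := mul_le_mul_of_nonneg_left hMAr hN0.le
      have h7 : s * d ≤ 1 * d := by
        apply mul_le_mul_of_nonneg_right _ hdR.le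
        nlinarith only [hs2, hg, hg1]
      linarith
    have hX0 : 0 ≤ (1 - 2 * κ' - 2 * s) * (d : ℝ) := by
      apply mul_nonneg _ hdR.le
      nlinarith only [hs2, hκ, hg, hg1]
    have hsq : ((1 - 2 * κ' - 2 * s) * (d : ℝ)) ^ 2 ≤ (N * (M.card : ℝ)) ^ 2 :=
      pow_le_pow_left₀ hX0 hX 2
    have hlin : (N : ℝ) ^ 2 * M.card ≤ s * (d : ℝ) ^ 2 := by
      have h6 : (N : ℝ) ^ 2 * M.card = N * (N * M.card) := by ring
      have h7 := mul_le_mul_of_nonneg_left hX2 hN0.le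
      have h8 := mul_le_mul_of_nonneg_right hNd hdR.le
      nlinarith only [h6, h7, h8]
    have h6 := mul_le_mul_of_nonneg_left h1 (by positivity : (0 : ℝ) ≤ (N : ℝ) ^ 2)
    have h7 : (N : ℝ) ^ 2 * (M.card : ℝ) ^ 2 = (N * (M.card : ℝ)) ^ 2 := by ring
    have h8 : (N : ℝ) ^ 2 * (((mis G M).card : ℝ) + M.card + ee G M M) =
        (N : ℝ) ^ 2 * (mis G M).card + (N : ℝ) ^ 2 * M.card + (N : ℝ) ^ 2 * ee G M M := by ring
    have h9 : (1 - 2 * κ' - 2 * s) ^ 2 ≥ 1 - 4 * κ' - 4 * s := by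
      nlinarith only [hκ0, hs]
    have h10 := mul_le_mul_of_nonneg_right h9 (by positivity : (0 : ℝ) ≤ (d : ℝ) ^ 2)
    have h11 : (1 - 4 * κ' - 4 * s - s - (1 - g ^ 2 / 16 + s)) * (d : ℝ) ^ 2 ≤
        (N : ℝ) ^ 2 * ((mis G M).card : ℝ) := by
      nlinarith only [h5, hsq, hlin, h6, h7, h8, h10]
    refine le_trans ?_ h11
    apply mul_le_mul_of_nonneg_right _ (by positivity)
    linarith

end

/-- chunk size -/
theorem K_bounds {τ κ1 : ℝ} (hκ : 0 < κ1) (hκ1 : κ1 ≤ 1) (hτ : 1 ≤ τ) :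
    8 * τ ≤ κ1 * (⌈8 * τ / κ1⌉₊ : ℝ) ∧ κ1 * (⌈8 * τ / κ1⌉₊ : ℝ) ≤ 16 * τ ∧
      8 * τ ≤ (⌈8 * τ / κ1⌉₊ : ℝ) ∧ 0 < ⌈8 * τ / κ1⌉₊ := by
  have h0 : 0 ≤ 8 * τ / κ1 := by positivity
  have h1 : 8 * τ / κ1 ≤ (⌈8 * τ / κ1⌉₊ : ℝ) := Nat.le_ceil _
  have h2 : (⌈8 * τ / κ1⌉₊ : ℝ) < 8 * τ / κ1 + 1 := Nat.ceil_lt_add_one h0
  have h3 : κ1 * (8 * τ / κ1) = 8 * τ := by field_simp
  have h4 := mul_le_mul_of_nonneg_left h1 hκ.le
  have h5 := mul_le_mul_of_nonneg_left h2.le hκ.le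
  have h6 : 8 * τ ≤ 8 * τ / κ1 := by
    rw [le_div_iff₀ hκ]
    nlinarith only [hκ1, hτ]
  refine ⟨by linarith, by nlinarith only [h5, h3, hκ1, hτ], by linarith, ?_⟩
  have : (0 : ℝ) < (⌈8 * τ / κ1⌉₊ : ℝ) := by linarith
  exact_mod_cast this

theorem stmt_OWN (hVOUT : Stmt_VOUT.{u}) (hCHK : Stmt_CHK.{u}) (hCOUNT : Stmt_COUNT.{u}) :
    Stmt_OWN.{u} := by
  obtain ⟨κ1, hκ1, hκ11, hV0⟩ := hVOUT
  refine ⟨κ1, hκ1, hκ11, ?_⟩
  intro ζ hζ hζ1
  obtain ⟨e, he⟩ : ∃ e : ℝ, e = κ1 * ζ / 1000 := ⟨_, rfl⟩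
  have he0 : 0 < e := by rw [he]; positivity
  have he1 : e ≤ 1 / 1000 := by
    rw [he]
    have : κ1 * ζ ≤ 1 := by nlinarith
    linarith
  obtain ⟨η, hη⟩ : ∃ η : ℝ, η = min (e ^ 3 / 8) (min (κ1 / 100) (κ1 * ζ / 100)) := ⟨_, rfl⟩
  have hη0 : 0 < η := by
    rw [hη]
    exact lt_min (by positivity) (lt_min (by positivity) (by positivity))
  have hη1 : η ≤ e ^ 3 / 8 := by rw [hη]; exact min_le_left _ _
  have hη2 : η ≤ κ1 / 100 := by rw [hη]; exact (min_le_right _ _).trans (min_le_left _ _)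
  have hη3 : η ≤ κ1 * ζ / 100 := by
    rw [hη]
    exact (min_le_right _ _).trans (min_le_right _ _)
  refine ⟨η, hη0, ?_⟩
  intro g hg hg1
  obtain ⟨c, hc⟩ : ∃ c : ℝ, c = g ^ 2 / 32 := ⟨_, rfl⟩
  have hc0 : 0 < c := by rw [hc]; positivity
  have hc1 : c ≤ 1 := by rw [hc]; nlinarith
  obtain ⟨κ', hκ'⟩ : ∃ κ' : ℝ, κ' = min (e / 2 / 4) (c / 100) := ⟨_, rfl⟩
  have hκ'0 : 0 < κ' := by rw [hκ']; exact lt_min (by positivity) (by positivity)
  have hκ'1 : κ' ≤ e / 2 / 4 := by rw [hκ']; exact min_le_left _ _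
  have hκ'2 : κ' ≤ c / 100 := by rw [hκ']; exact min_le_right _ _
  obtain ⟨κ, hκ, hV1⟩ := hV0 c (e / 2) κ' hc0 hc1 (by positivity) (by linarith) hκ'0 hκ'1 hκ'2
  refine ⟨κ, hκ, ?_⟩
  intro N hN
  obtain ⟨ε, dV, hε, hV⟩ := hV1 N hN
  obtain ⟨s, hs⟩ : ∃ s : ℝ, s = min (min (ε / 8) (e / 32)) (min (κ' / 8) (c / 16)) := ⟨_, rfl⟩
  have hs0 : 0 < s := by
    rw [hs]
    exact lt_min (lt_min (by positivity) (by positivity)) (lt_min (by positivity) (by positivity))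
  have hs1 : s ≤ ε / 8 := by rw [hs]; exact (min_le_left _ _).trans (min_le_left _ _)
  have hs2 : s ≤ e / 32 := by rw [hs]; exact (min_le_left _ _).trans (min_le_right _ _)
  have hs3 : s ≤ κ' / 8 := by rw [hs]; exact (min_le_right _ _).trans (min_le_left _ _)
  have hs4 : s ≤ c / 16 := by rw [hs]; exact (min_le_right _ _).trans (min_le_right _ _)
  have hN1 : (1 : ℝ) ≤ N := by exact_mod_cast hN
  have hN0 : (0 : ℝ) < N := by linarith
  obtain ⟨d1, hd1⟩ := nums N s (κ1 * ζ) hs0 (by positivity)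
  refine ⟨s / (N : ℝ) ^ 2, max dV d1, by positivity, ?_⟩
  intro V _ G d Ys L UH hd hH
  have hdV : dV ≤ d := (le_max_left _ _).trans hd
  obtain ⟨n1, n2, n3, n4, n5, n6⟩ := hd1 d ((le_max_right _ _).trans hd)
  have hd0 : 0 < d := by omega
  have hdR : (0 : ℝ) < d := by exact_mod_cast hd0
  obtain ⟨O, hO⟩ : ∃ O, O = outer Ys \ UH := ⟨_, rfl⟩
  have hOm : ∀ x, x ∈ O ↔ x ∈ outer Ys ∧ x ∉ UH := by
    intro x
    rw [hO, mem_sdiff]
  have houtY : ∀ Y ∈ Ys, ∀ x ∈ outer Ys, x ∉ Y := by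
    intro Y hY x hx hxY
    unfold outer at hx
    rw [mem_filter] at hx
    exact hx.2 ⟨Y, hY, hxY⟩
  obtain ⟨Yr, hYr⟩ : ∃ Yr, Yr = Ys.filter (fun Y => Y.card ≤ d ∧
    Real.log d ^ 3 * (Y ∩ L).card ≤ tl G d L Y) := ⟨_, rfl⟩
  have hYrm : ∀ Y, Y ∈ Yr ↔ Y ∈ Ys ∧ Y.card ≤ d ∧ Real.log d ^ 3 * (Y ∩ L).card ≤ tl G d L Y := by
    intro Y
    rw [hYr, mem_filter]
  have hdisr : ∀ Y ∈ Yr, ∀ Y' ∈ Yr, Y ≠ Y' → Disjoint Y Y' := fun Y hY Y' hY' =>
    hH.dis Y ((hYrm Y).mp hY).1 Y' ((hYrm Y').mp hY').1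
  have hOY : ∀ Y ∈ Yr, Disjoint O Y := by
    intro Y hY
    rw [disjoint_left]
    intro x hx
    exact houtY Y ((hYrm Y).mp hY).1 x ((hOm x).mp hx).1
  obtain ⟨Cf, hCf⟩ : ∃ Cf, Cf = CfG G (e * d) O L Yr := ⟨_, rfl⟩
  have hCfd : ∀ w, ((nb Cf w).card : ℝ) ≤ e / 8 * d := by
    intro w
    have h1 := card_CfG (G := G) (d := d) (e0 := e * d) (η := η) (O := O) (Yr := Yr) L
      (by positivity) hη0.le hH.deg hdisr hOY (fun Y hY => ((hYrm Y).mp hY).2.1)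
      (fun Y hY => hH.sum Y ((hYrm Y).mp hY).1) w
    rw [← hCf] at h1
    have h2 : η * (d : ℝ) ^ 3 ≤ (e / 8 * d) * (e * d) ^ 2 := by
      have h3 := mul_le_mul_of_nonneg_right hη1 (by positivity : (0 : ℝ) ≤ (d : ℝ) ^ 3)
      nlinarith only [h3]
    exact le_of_mul_le_mul_right (h1.trans h2) (by positivity)
  -- sizes of the regime spots
  have hYpos : ∀ Y ∈ Yr, (0 : ℝ) < (Y ∩ L).card := by
    intro Y hY
    have := hH.low Y ((hYrm Y).mp hY).1
    nlinarith only [this, hdR]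
  obtain ⟨τ, hτ⟩ : ∃ τ : Finset V → ℝ, τ = fun Y => tl G d L Y / (Y ∩ L).card := ⟨_, rfl⟩
  have hτY : ∀ Y ∈ Yr, τ Y * (Y ∩ L).card = tl G d L Y := by
    intro Y hY
    have := (hYpos Y hY).ne'
    rw [hτ]
    field_simp
  have hτl : ∀ Y ∈ Yr, Real.log d ^ 3 ≤ τ Y := by
    intro Y hY
    rw [hτ]
    beta_reduce
    rw [le_div_iff₀ (hYpos Y hY)]
    exact ((hYrm Y).mp hY).2.2
  have hl3 : 1 ≤ Real.log (d : ℝ) ^ 3 := one_le_pow₀ n4
  have hτu : ∀ Y ∈ Yr, τ Y ≤ η * d := by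
    intro Y hY
    rw [hτ]
    beta_reduce
    rw [div_le_iff₀ (hYpos Y hY)]
    exact hH.sum Y ((hYrm Y).mp hY).1
  obtain ⟨K, hK⟩ : ∃ K : Finset V → ℕ, K = fun Y => ⌈8 * τ Y / κ1⌉₊ := ⟨_, rfl⟩
  have hKb : ∀ Y ∈ Yr, 8 * τ Y ≤ κ1 * (K Y : ℝ) ∧ κ1 * (K Y : ℝ) ≤ 16 * τ Y ∧
      8 * τ Y ≤ (K Y : ℝ) ∧ 0 < K Y := by
    intro Y hY
    rw [hK]
    exact K_bounds hκ1 hκ11 (hl3.trans (hτl Y hY))
  have hKu : ∀ Y ∈ Yr, (K Y : ℝ) ≤ 16 / 100 * d := by
    intro Y hY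
    have h1 := (hKb Y hY).2.1
    have h2 := hτu Y hY
    have h3 := mul_le_mul_of_nonneg_right hη2 hdR.le
    have h4 : κ1 * (K Y : ℝ) ≤ κ1 * (16 / 100 * d) := by nlinarith only [h1, h2, h3]
    exact le_of_mul_le_mul_left h4 hκ1
  -- chunks
  have hch : ∀ Y : {Y // Y ∈ Yr}, ∃ (n : ℕ) (Ch : Fin n → Finset V) (Lf : Finset V),
      Srt (((UH ∪ outer Ys) \ Y.1).filter (fun w => w ∉ UH ∧ 0 < (nb G w ∩ (Y.1 ∩ L)).card ∧
        ((nb G w ∩ (Y.1 ∩ L)).card : ℝ) < κ1 * ζ / 1000 * d)) (fun w => (nb G w ∩ (Y.1 ∩ L)).card)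
        (K Y.1) n Ch Lf := fun Y => hCHK _ _ _ (hKb Y.1 Y.2).2.2.2
  choose n Ch Lf hS using hch
  have hChm : ∀ Y i, ∀ x ∈ Ch Y i, x ∈ O ∧ 0 < (nb G x ∩ (Y.1 ∩ L)).card := by
    intro Y i x hx
    have h1 := (hS Y).sub i hx
    rw [mem_filter, mem_sdiff, mem_union] at h1
    refine ⟨?_, h1.2.2.1⟩
    rw [hOm]
    refine ⟨?_, h1.2.1⟩
    rcases h1.1.1 with h2 | h2
    · exact absurd h2 h1.2.1
    · exact h2
  -- every vertex is in few chunks
  have hChn : ∀ w, (univ.filter (fun i : (Y : {Y // Y ∈ Yr}) × Fin (n Y) =>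
      w ∈ Ch i.1 i.2)).card ≤ d := by
    intro w
    obtain ⟨S, hSd⟩ : ∃ S, S = Yr.filter (fun Y => (1 : ℝ) ≤ ((nb G w ∩ (Y ∩ L)).card : ℝ)) :=
      ⟨_, rfl⟩
    have h1 : S.card ≤ d := by
      have h2 := num_big (e0 := 1) hH.deg hdisr L w
      rw [← hSd, mul_one] at h2
      exact_mod_cast h2
    refine le_trans (card_le_card_of_injOn (fun i => i.1.1) ?_ ?_) h1
    · intro i hi
      rw [coe_filter, Set.mem_ofPred_eq] at hi
      rw [mem_coe, hSd, mem_filter]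
      refine ⟨i.1.2, ?_⟩
      have := (hChm i.1 i.2 w hi.2).2
      exact_mod_cast this
    · rintro ⟨Y, i⟩ hi ⟨Y', i'⟩ hi' hYY
      rw [coe_filter, Set.mem_ofPred_eq] at hi hi'
      have hY : Y = Y' := Subtype.ext hYY
      subst hY
      by_cases hii : i = i'
      · rw [hii]
      · exact absurd hi'.2 (disjoint_left.mp ((hS Y).dis i i' hii) hi.2)
  refine ⟨V ⊕ (V ⊕ ((Y : {Y // Y ∈ Yr}) × Fin (n Y))), inferInstance,
    Sum.elim (fun w => nb G w ∩ O) (Sum.elim (fun w => nb Cf w ∩ O) (fun i => Ch i.1 i.2)),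
    ?_, ?_, ?_⟩
  · rintro (w | w | i)
    · have h1 := (card_le_card (inter_subset_left (s₁ := nb G w) (s₂ := O))).trans (hH.deg w)
      exact h1.trans (by omega)
    · have h1 := hCfd w
      have h2 : ((nb Cf w ∩ O).card : ℝ) ≤ (nb Cf w).card := by
        exact_mod_cast card_le_card inter_subset_left
      have h3 : ((nb Cf w ∩ O).card : ℝ) ≤ 2 * d := by nlinarith only [h1, h2, he1, hdR]
      exact_mod_cast h3
    · change (Ch i.1 i.2).card ≤ 2 * d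
      rw [(hS i.1).car i.2]
      have h1 := hKu i.1.1 i.1.2
      have h2 : (K i.1.1 : ℝ) ≤ 2 * d := by linarith
      exact_mod_cast h2
  · intro v
    have h1 : univ.filter (fun j : V ⊕ (V ⊕ ((Y : {Y // Y ∈ Yr}) × Fin (n Y))) =>
        v ∈ (Sum.elim (fun w => nb G w ∩ O) (Sum.elim (fun w => nb Cf w ∩ O)
          (fun i => Ch i.1 i.2)) j : Finset V)) ⊆
        (nb G v).image Sum.inl ∪ ((nb Cf v).image (fun w => Sum.inr (Sum.inl w)) ∪
          (univ.filter (fun i : (Y : {Y // Y ∈ Yr}) × Fin (n Y) => v ∈ Ch i.1 i.2)).image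
            (fun i => Sum.inr (Sum.inr i))) := by
      rintro (w | w | i) hj
      · rw [mem_filter, Sum.elim_inl, mem_inter, mem_nb] at hj
        rw [mem_union]
        exact Or.inl (mem_image.mpr ⟨w, mem_nb.mpr hj.2.1.symm, rfl⟩)
      · rw [mem_filter, Sum.elim_inr, Sum.elim_inl, mem_inter, mem_nb] at hj
        rw [mem_union, mem_union]
        exact Or.inr (Or.inl (mem_image.mpr ⟨w, mem_nb.mpr hj.2.1.symm, rfl⟩))
      · rw [mem_filter, Sum.elim_inr, Sum.elim_inr] at hj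
        rw [mem_union, mem_union]
        exact Or.inr (Or.inr (mem_image.mpr ⟨i, mem_filter.mpr ⟨mem_univ _, hj.2⟩, rfl⟩))
    have h2 := (card_le_card h1).trans ((card_union_le _ _).trans
      (Nat.add_le_add card_image_le ((card_union_le _ _).trans
        (Nat.add_le_add card_image_le card_image_le))))
    have h3 : (nb Cf v).card ≤ d := by
      have h4 := hCfd v
      have h5 : ((nb Cf v).card : ℝ) ≤ d := by nlinarith only [h4, he1, hdR]
      exact_mod_cast h5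
    have h4 := hChn v
    have h5 := hH.deg v
    have h6 : 3 * d ≤ d ^ 3 := by
      have h7 : 3 * 3 ≤ d * d := Nat.mul_le_mul n6 n6
      have h8 : 3 * d ≤ (d * d) * d := Nat.mul_le_mul_right d (by omega)
      calc 3 * d ≤ (d * d) * d := h8
        _ = d ^ 3 := by ring
    omega
  intro T Q C _ _ lab fq P c0 Fx GO C2 hQ hden hGO hlab1 hlab2 htst hPl hPu hPd hC2 hFx
  -- classes
  obtain ⟨fib, hfib⟩ : ∃ fib : Q → Finset T, ∀ q, fib q = univ.filter (fun t => fq t = q) :=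
    ⟨_, fun _ => rfl⟩
  have hden' : ∀ q, den (fib q) = 1 / (N : ℝ) := fun q => by rw [hfib]; exact hden q
  have hclq : ∀ (X : Finset V) (q : Q), X ∩ cq (fun v => fq (lab v)) q = X ∩ cl lab (fib q) := by
    intro X q
    ext x
    rw [mem_inter, mem_inter, mem_cl, hfib]
    unfold cq
    rw [mem_filter, mem_filter]
    simp only [mem_univ, true_and]
  have hT1 : ∀ w, Tst lab d (s / (N : ℝ) ^ 2) (nb G w ∩ O) := fun w => htst (Sum.inl w)
  have hT2 : ∀ w, Tst lab d (s / (N : ℝ) ^ 2) (nb Cf w ∩ O) := fun w =>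
    htst (Sum.inr (Sum.inl w))
  have hT3 : ∀ i : (Y : {Y // Y ∈ Yr}) × Fin (n Y), Tst lab d (s / (N : ℝ) ^ 2) (Ch i.1 i.2) :=
    fun i => htst (Sum.inr (Sum.inr i))
  have hassoc : ∀ (w : V) (H : SimpleGraph V) (q : Q),
      nb H w ∩ (O ∩ cq (fun v => fq (lab v)) q) = (nb H w ∩ O) ∩ cl lab (fib q) := by
    intro w H q
    rw [← inter_assoc, hclq]
  have hGup : ∀ (w : V) (q : Q), (N : ℝ) * (((nb G w ∩ O) ∩ cl lab (fib q)).card : ℝ) ≤
      (1 + s) * (nb G w ∩ O).card + s * d := by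
    intro w q
    have h1 := tst_up hN hs0.le (hT1 w) (hden' q)
    linarith
  have hGO1 : ∀ w, ((nb G w ∩ O).card : ℝ) ≤ d := by
    intro w
    exact_mod_cast (card_le_card inter_subset_left).trans (hH.deg w)
  have hVOH : VOH c (e / 2) κ' κ ε G Cf C2 d O (fun v => fq (lab v)) P
      (fun v => (nb G v ∩ UH).image c0 ∪ Fx v)
      (fun i : (Y : {Y // Y ∈ Yr}) × Fin (n Y) => Ch i.1 i.2) := by
    refine ⟨?_, ?_, hPd, ?_, ?_, ?_, ?_, ?_, ?_, ?_, ?_, hChn⟩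
    · intro q
      rw [hQ]
      exact hPl q
    · intro q
      rw [hQ]
      exact hPu q
    · intro w _
      rw [hQ, hassoc]
      have h1 := hGup w (fq (lab w))
      have h2 := mul_le_mul_of_nonneg_left (hGO1 w) (by positivity : 0 ≤ 1 + s)
      have h3 := mul_le_mul_of_nonneg_right hs1 hdR.le
      nlinarith only [h1, h2, h3, hε, hdR]
    · intro w _
      rw [hQ]
      have h1 : ((nb G w ∩ UH).image c0 ∪ Fx w).card ≤ 2 + (Fx w).card :=
        (card_union_le _ _).trans (Nat.add_le_add_right (card_image_le.trans (hH.two w)) _)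
      have h2 : ((((nb G w ∩ UH).image c0 ∪ Fx w).card : ℕ) : ℝ) ≤ 2 + (Fx w).card := by
        exact_mod_cast h1
      have h3 := mul_le_mul_of_nonneg_left (h2.trans (by linarith [hFx w] :
        (2 : ℝ) + (Fx w).card ≤ 2 + s / (N : ℝ) ^ 2 * d)) hN0.le
      have h4 : (N : ℝ) * (2 + s / (N : ℝ) ^ 2 * d) = 2 * N + s / N * d := by
        field_simp
      have h5 : s / N * (d : ℝ) ≤ s * d :=
        mul_le_mul_of_nonneg_right (div_le_self hs0.le hN1) hdR.le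
      have h6 := mul_le_mul_of_nonneg_right hs1 hdR.le
      have h7 : 0 ≤ ε * d := by positivity
      nlinarith only [h3, h4, h5, h6, h7, n2]
    · intro w hw u hu hwu
      rw [hQ, hassoc, hassoc]
      have h0 : ∃ Y ∈ Yr, e * d ≤ ((nb G w ∩ (Y ∩ L)).card : ℝ) := by
        rw [hCf] at hwu
        obtain ⟨-, -, -, Y, hY, h1, -⟩ := hwu
        exact ⟨Y, hY, h1⟩
      obtain ⟨Y, hY, hYe⟩ := h0
      have h1 : (nb G w ∩ O).card + (nb G w ∩ (Y ∩ L)).card ≤ d := by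
        rw [← card_union_of_disjoint ((hOY Y hY).mono inter_subset_right
          (inter_subset_right.trans inter_subset_left))]
        exact (card_le_card (union_subset inter_subset_left inter_subset_left)).trans (hH.deg w)
      have h2 : ((nb G w ∩ O).card : ℝ) + (nb G w ∩ (Y ∩ L)).card ≤ d := by exact_mod_cast h1
      have h3 := hGup w (fq (lab w))
      have h4 := tst_up hN hs0.le (hT2 w) (hden' (fq (lab w)))
      have h5 : ((nb Cf w ∩ O).card : ℝ) ≤ e / 8 * d := by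
        have : ((nb Cf w ∩ O).card : ℝ) ≤ (nb Cf w).card := by
          exact_mod_cast card_le_card inter_subset_left
        exact this.trans (hCfd w)
      have h6 : (1 + s) * ((nb G w ∩ O).card : ℝ) ≤ (1 + s) * ((1 - e) * d) :=
        mul_le_mul_of_nonneg_left (by linarith) (by positivity)
      have h7 : (1 + s) * ((nb Cf w ∩ O).card : ℝ) ≤ (1 + s) * (e / 8 * d) :=
        mul_le_mul_of_nonneg_left h5 (by positivity)
      have h8 : (1 + s) * ((1 - e) * d) + (1 + s) * (e / 8 * d) + 2 * (s * d) ≤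
          (1 - e / 2) * d := by
        have h9 : ((1 + s) * (1 - e) + (1 + s) * (e / 8) + 2 * s) ≤ 1 - e / 2 := by
          nlinarith only [hs2, hs0, he0]
        have h10 := mul_le_mul_of_nonneg_right h9 hdR.le
        linarith
      rw [mul_add]
      linarith
    · intro w _
      rw [hQ]
      have h1 := mul_le_mul_of_nonneg_left (hC2 w) hN0.le
      have h2 : (N : ℝ) * (s / (N : ℝ) ^ 2 * d) = s / N * d := by field_simp
      have h3 : s / N * (d : ℝ) ≤ s * d :=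
        mul_le_mul_of_nonneg_right (div_le_self hs0.le hN1) hdR.le
      have h4 : s * (d : ℝ) ≤ ε * d := mul_le_mul_of_nonneg_right (by linarith) hdR.le
      linarith
    · intro w hw
      rw [hQ, hassoc]
      have h1 := sps_class (g := g) (s := s) (κ' := κ') (G := G) (GO := GO) (d := d)
        (N := N) (Ys := Ys) (UH := UH) (lab := lab) (P := fib (fq (lab w))) hg hg1 hd0 hN hs0
        hs3 (by rw [← hc]; exact hs4) (by rw [← hc]; exact hκ'2) n2 hH.deg hH.nsc hGO hH.two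
        hlab1 hlab2 (hden' _) w ((hOm w).mp hw).1 ((nb G w ∩ O) ∩ cl lab (fib (fq (lab w)))) (by
          intro x
          rw [mem_inter, mem_inter, mem_nb, mem_cl, hOm, and_assoc, and_assoc])
      rw [← hc] at h1
      exact h1
    · intro i x hx
      exact (hChm i.1 i.2 x hx).1
    · intro i q
      rw [hclq]
      have h1 := tst_lo hN hs0.le (hT3 i) (hden' q)
      rw [(hS i.1).car i.2] at h1
      have h2 := (hKb i.1.1 i.1.2).2.2.1
      have h3 := hτl i.1.1 i.1.2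
      have h4 : (1 : ℝ) / 2 * (K i.1.1 : ℝ) ≤ (1 - s) * K i.1.1 := by
        apply mul_le_mul_of_nonneg_right _ (Nat.cast_nonneg _)
        linarith
      have h5 : (N : ℝ) * Real.log d ^ 2 ≤ Real.log d ^ 3 := by
        have h6 : 0 ≤ Real.log (d : ℝ) ^ 2 := by positivity
        nlinarith only [n3, h6]
      have h6 : (N : ℝ) * (2 * Real.log d ^ 2) ≤ N * ((Ch i.1 i.2 ∩ cl lab (fib q)).card : ℝ) := by
        linarith
      exact le_of_mul_le_mul_left h6 hN0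
    · intro i q
      rw [hclq, hQ]
      have h1 := tst_up hN hs0.le (hT3 i) (hden' q)
      rw [(hS i.1).car i.2] at h1
      have h2 := hKu i.1.1 i.1.2
      have h3 : (N : ℝ) * ((Ch i.1 i.2 ∩ cl lab (fib q)).card : ℝ) ≤ d := by
        have h4 : (1 + s) * (K i.1.1 : ℝ) ≤ 2 * (16 / 100 * d) := by
          apply mul_le_mul (by linarith) h2 (Nat.cast_nonneg _) (by norm_num)
        have h5 : s * (d : ℝ) ≤ 1 / 10 * d := mul_le_mul_of_nonneg_right (by linarith) hdR.le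
        linarith
      exact_mod_cast h3
  obtain ⟨f, hf1, hf2, hf3⟩ := hV G Cf C2 d O (fun v => fq (lab v)) P
    (fun v => (nb G v ∩ UH).image c0 ∪ Fx v) _ _ hdV hQ hVOH
  obtain ⟨cc, hcc⟩ : ∃ cc : V → C, cc = fun v => if v ∈ UH then c0 v else f v := ⟨_, rfl⟩
  have hcU : ∀ v ∈ UH, cc v = c0 v := by
    intro v hv
    rw [hcc]
    exact if_pos hv
  have hcO : ∀ v, v ∉ UH → cc v = f v := by
    intro v hv
    rw [hcc]
    exact if_neg hv
  have hUO : ∀ v w, v ∈ UH → w ∈ outer Ys → w ∉ UH → G.Adj v w → cc v ≠ cc w := by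
    intro v w hv hw hwU hvw h
    rw [hcU v hv, hcO w hwU] at h
    have h1 := (hf1 w ((hOm w).mpr ⟨hw, hwU⟩)).2
    exact h1 (mem_union_left _ (mem_image.mpr ⟨v, mem_inter.mpr ⟨mem_nb.mpr hvw.symm, hv⟩, h⟩))
  refine ⟨cc, hcU, ?_, ?_, ?_, ?_⟩
  · intro v hv hvU
    rw [hcO v hvU]
    have h1 := hf1 v ((hOm v).mpr ⟨hv, hvU⟩)
    exact ⟨h1.1, fun h2 => h1.2 (mem_union_right _ h2)⟩
  · intro v w hv hw hUU hvw
    by_cases hvU : v ∈ UH
    · have hwU : w ∉ UH := fun h => hUU ⟨hvU, h⟩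
      exact hUO v w hvU (hw.resolve_left hwU) hwU hvw
    · have hvo := hv.resolve_left hvU
      by_cases hwU : w ∈ UH
      · exact (hUO w v hwU hvo hvU hvw.symm).symm
      · have hwo := hw.resolve_left hwU
        rw [hcO v hvU, hcO w hwU]
        exact hf2 v ((hOm v).mpr ⟨hvo, hvU⟩) w ((hOm w).mpr ⟨hwo, hwU⟩) (Or.inl hvw)
  · intro v hv w hw hvU hwU hvw
    rw [hcO v hvU, hcO w hwU]
    exact hf2 v ((hOm v).mpr ⟨hv, hvU⟩) w ((hOm w).mpr ⟨hw, hwU⟩) (Or.inr (Or.inr hvw))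
  · intro Y hY hYd hYt Fy hFy
    have hYr' : Y ∈ Yr := (hYrm Y).mpr ⟨hY, hYd, hYt⟩
    have hWY : Disjoint ((UH ∪ outer Ys) \ Y) Y := sdiff_disjoint
    have hWm : ∀ w ∈ (UH ∪ outer Ys) \ Y, w ∉ UH → w ∈ O := by
      intro w hw hwU
      rw [mem_sdiff, mem_union] at hw
      exact (hOm w).mpr ⟨hw.1.resolve_left hwU, hwU⟩
    have hYLd : (Y ∩ L).card ≤ d := (card_le_card inter_subset_left).trans hYd
    have hCNH : CNH κ1 ζ (τ Y) G d (K Y) (n ⟨Y, hYr'⟩) (Y ∩ L) ((UH ∪ outer Ys) \ Y) UH cc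
        (Ch ⟨Y, hYr'⟩) (Lf ⟨Y, hYr'⟩) Fy := by
      refine ⟨hκ1, hκ11, hζ, hζ1, ?_, hd0, ?_, hYLd, (hKb Y hYr').1, (hKb Y hYr').2.1, ?_, ?_, ?_, ?_,
        hS ⟨Y, hYr'⟩, ?_, hFy⟩
      · have h1 := mul_le_mul_of_nonneg_left (hτl Y hYr') (by positivity : 0 ≤ κ1 * ζ)
        linarith
      · have h1 := hH.low Y hY
        have h2 : (d : ℝ) ≤ 2 * (Y ∩ L).card := by nlinarith only [h1, hdR]
        exact_mod_cast h2
      · rw [hτY Y hYr']
        exact wt_le hH.deg Y L _ hWY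
      · intro w hw
        have h1 := hH.hub Y hY w (mem_sdiff.mp hw).2
        have h2 : ((Y ∩ L).card : ℝ) ≤ d := by exact_mod_cast hYLd
        have h3 := mul_le_mul_of_nonneg_left h2 hζ.le
        linarith
      · rw [dblR]
        have h1 : ∑ b ∈ Y ∩ L, ((nb G b ∩ (((UH ∪ outer Ys) \ Y) ∩ UH)).card : ℝ) ≤
            ∑ _b ∈ Y ∩ L, (2 : ℝ) := by
          refine sum_le_sum fun b _ => ?_
          have h2 : (nb G b ∩ (((UH ∪ outer Ys) \ Y) ∩ UH)).card ≤ 2 := by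
            refine le_trans (card_le_card ?_) (hH.two b)
            intro x hx
            rw [mem_inter, mem_inter] at hx
            exact mem_inter.mpr ⟨hx.1, hx.2.2⟩
          exact_mod_cast h2
        rw [sum_const, nsmul_eq_mul] at h1
        linarith
      · intro w hw w' hw' hwU hwU' hne h1 h2
        rw [hcO w hwU, hcO w' hwU']
        refine hf2 w (hWm w hw hwU) w' (hWm w' hw' hwU') (Or.inr (Or.inl ?_))
        rw [hCf]
        refine ⟨hne, hWm w hw hwU, hWm w' hw' hwU', Y, hYr', ?_, ?_⟩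
        · rw [he]; exact h1
        · rw [he]; exact h2
      · intro i
        have h1 := hf3 ⟨⟨Y, hYr'⟩, i⟩
        have h2 : (Ch ⟨Y, hYr'⟩ i).image cc = (Ch ⟨Y, hYr'⟩ i).image f := by
          refine image_congr ?_
          intro x hx
          exact hcO x ((hOm x).mp (hChm _ _ x hx).1).2
        rw [h2]
        beta_reduce at h1
        rw [(hS ⟨Y, hYr'⟩).car i] at h1
        exact h1
    have h1 := hCOUNT κ1 ζ (τ Y) G d (K Y) (n ⟨Y, hYr'⟩) (Y ∩ L) ((UH ∪ outer Ys) \ Y) UH cc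
        (Ch ⟨Y, hYr'⟩) (Lf ⟨Y, hYr'⟩) Fy hCNH
    have h2 := mul_le_mul_of_nonneg_right h1 (hYpos Y hYr').le
    rw [mul_assoc, hτY Y hYr'] at h2
    have h3 := mul_le_mul_of_nonneg_left (hH.lgt Y hY) (Nat.cast_nonneg (α := ℝ) Fy.card)
    have h4 : 0 ≤ tl G d L Y := by
      have h5 := hτY Y hYr'
      have h6 := hτl Y hYr'
      rw [← h5]
      exact mul_nonneg (by linarith) (hYpos Y hYr').le
    have h5 : (1 + η) * (1 - κ1 * ζ / 20) ≤ 1 - κ1 * ζ / 30 := by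
      have h6 : 0 < κ1 * ζ := by positivity
      nlinarith only [hη3, h6, hη0]
    have h6 := mul_le_mul_of_nonneg_right h5 h4
    have h7 := mul_le_mul_of_nonneg_left h2 (by positivity : 0 ≤ 1 + η)
    nlinarith only [h3, h6, h7]

end Pool.Agent.Work.MP_db9399_vt.helper94
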