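import Pool.Agent.Work.MP_db9399_vt.Lsb
import Pool.Agent.Work.MP_db9399_all_helper6.AL

/-! # MP_db9399 PHASE 2, block LSB: random bijections with lists (helper94) -/

set_option autoImplicit false

namespace Pool.Agent.Work.MP_db9399_vt.helper94.LSB

open Finset Classical
open Pool.Agent.Work.MP_db9399_all (nb Stmt_AL)
open Pool.Agent.Work.MP_db9399_vt

universe u

variable {I X C : Type u} [Fintype X] [Fintype C]

theorem cfc {Ω : Type u} [Fintype Ω] (p q : Ω → Prop) [DecidablePred p] [DecidablePred q]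
    (h : ∀ x, p x ↔ q x) : (univ.filter p).card = (univ.filter q).card :=
  congrArg card (ext fun x => by rw [mem_filter, mem_filter, h])

/-- number of configurations -/
noncomputable def cnt {Ω : Type u} [Fintype Ω] (Q : Ω → Prop) : ℕ :=
  (@filter Ω Q (fun a => propDecidable (Q a)) univ).card

theorem cnt_eq {Ω : Type u} [Fintype Ω] (Q : Ω → Prop) [DecidablePred Q] :
    (univ.filter Q).card = cnt Q :=
  @cfc Ω _ Q Q _ (fun a => propDecidable (Q a)) (fun _ => Iff.rfl)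

/-- valid configurations -/
def Val (pt : X → I) (K : I → Finset C) (L : I → C → Finset X) (c : X → C) : Prop :=
  (∀ x, c x ∈ K (pt x) ∧ x ∈ L (pt x) (c x)) ∧ ∀ x x', pt x = pt x' → c x = c x' → x = x'

section
variable {pt : X → I} {K Hv : I → Finset C} {L : I → C → Finset X} {μ : I → C → ℝ}
  {bad : X → C → Prop} {Gs : SimpleGraph X}

omit [Fintype C] in
theorem card_L (h : LSH pt K Hv L μ bad Gs) (i : I) (b : C) (hb : b ∈ K i) :
    (Hv i).card < (L i b).card := by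
  have h1 := h.μL i b hb
  have h2 := h.μp i b hb
  have h3 : (0 : ℝ) < ((L i b).card : ℝ) - (Hv i).card := by
    by_contra hcon
    push Not at hcon
    have := mul_nonpos_of_nonneg_of_nonpos h2.le hcon
    linarith
  have h4 : ((Hv i).card : ℝ) < (L i b).card := by linarith
  exact_mod_cast h4

omit [Fintype C] in
/-- there are valid configurations -/
theorem exists_val (h : LSH pt K Hv L μ bad Gs) : ∃ c : X → C, Val pt K L c := by
  have h1 : ∀ i, ∃ f : {b // b ∈ K i} → X, Function.Injective f ∧ ∀ b, f b ∈ L i b.1 := by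
    intro i
    refine (all_card_le_biUnion_card_iff_exists_injective
      (fun b : {b // b ∈ K i} => L i b.1)).mp ?_
    intro s
    rcases s.eq_empty_or_nonempty with rfl | ⟨b0, hb0⟩
    · simp
    by_cases hs : ∀ b ∈ s, b.1 ∈ Hv i
    · have h2 : s.card ≤ (Hv i).card := by
        refine card_le_card_of_injOn (fun b => b.1) (fun b hb => hs b hb) ?_
        intro b _ b' _ hbb
        exact Subtype.ext hbb
      have h3 := card_L h i b0.1 b0.2
      have h4 : (L i b0.1).card ≤ (s.biUnion (fun b : {b // b ∈ K i} => L i b.1)).card :=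
        card_le_card (subset_biUnion_of_mem (fun b : {b // b ∈ K i} => L i b.1) hb0)
      omega
    · push Not at hs
      obtain ⟨b1, hb1, hb1'⟩ := hs
      have h2 : s.card ≤ (K i).card := by
        refine card_le_card_of_injOn (fun b => b.1) (fun b _ => b.2) ?_
        intro b _ b' _ hbb
        exact Subtype.ext hbb
      rw [← h.card i] at h2
      refine h2.trans (card_le_card ?_)
      intro x hx
      rw [mem_biUnion]
      exact ⟨b1, hb1, h.Ll i b1.1 b1.2 hb1' x (mem_filter.mp hx).2⟩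
  choose f hf1 hf2 using h1
  have h3 : ∀ x : X, ∃ b : {b // b ∈ K (pt x)}, f (pt x) b = x := by
    intro x
    have h4 : (univ : Finset {b // b ∈ K (pt x)}).image (f (pt x)) =
        univ.filter (fun x' => pt x' = pt x) := by
      refine eq_of_subset_of_card_le ?_ ?_
      · intro y hy
        obtain ⟨b, -, rfl⟩ := mem_image.mp hy
        exact mem_filter.mpr ⟨mem_univ _, h.LS _ b.1 b.2 _ (hf2 _ b)⟩
      · rw [card_image_of_injective _ (hf1 _), h.card, card_univ, Fintype.card_coe]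
    have h5 : x ∈ univ.filter (fun x' => pt x' = pt x) := mem_filter.mpr ⟨mem_univ _, rfl⟩
    rw [← h4] at h5
    obtain ⟨b, -, hb⟩ := mem_image.mp h5
    exact ⟨b, hb⟩
  choose g hg using h3
  refine ⟨fun x => (g x).1, ?_, ?_⟩
  · intro x
    refine ⟨(g x).2, ?_⟩
    have := hf2 (pt x) (g x)
    rwa [hg x] at this
  · intro x x' hp hc
    have h6 : f (pt x) (g x) = x := hg x
    have h7 : f (pt x') (g x') = x' := hg x'
    have h8 : ∀ i (hi : pt x' = i) (b : {b // b ∈ K i}), b.1 = (g x').1 → f i b = x' := by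
      intro i hi b hb
      subst hi
      have : b = g x' := Subtype.ext hb
      rw [this]
      exact h7
    rw [← h6]
    exact h8 (pt x) hp.symm (g x) hc

omit [Fintype C] in
/-- exchange of the colours of two positions of the same part -/
theorem val_swap {c : X → C} (hc : Val pt K L c) {x x' : X}
    (hp : pt x' = pt x) (h1 : x ∈ L (pt x) (c x')) (h2 : x' ∈ L (pt x) (c x)) :
    Val pt K L (c ∘ Equiv.swap x x') := by
  have hpt : ∀ y, pt (Equiv.swap x x' y) = pt y := by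
    intro y
    by_cases hy : y = x
    · rw [hy, Equiv.swap_apply_left, hp]
    · by_cases hy' : y = x'
      · rw [hy', Equiv.swap_apply_right, hp]
      · rw [Equiv.swap_apply_of_ne_of_ne hy hy']
  refine ⟨fun y => ⟨?_, ?_⟩, ?_⟩
  · have := (hc.1 (Equiv.swap x x' y)).1
    rwa [hpt] at this
  · by_cases hy : y = x
    · subst hy
      change y ∈ L (pt y) (c (Equiv.swap y x' y))
      rw [Equiv.swap_apply_left]
      exact h1
    · by_cases hy' : y = x'
      · subst hy'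
        change y ∈ L (pt y) (c (Equiv.swap x y y))
        rw [Equiv.swap_apply_right, hp]
        exact h2
      · change y ∈ L (pt y) (c (Equiv.swap x x' y))
        rw [Equiv.swap_apply_of_ne_of_ne hy hy']
        exact (hc.1 y).2
  · intro y y' hyy hcc
    have h3 := hc.2 (Equiv.swap x x' y) (Equiv.swap x x' y') (by rw [hpt, hpt]; exact hyy) hcc
    exact (Equiv.swap x x').injective h3

/-- the switching lemma -/
theorem switch (h : LSH pt K Hv L μ bad Gs) (x0 : X) (b0 : C) (hb0 : b0 ∈ K (pt x0))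
    (Q : {c : X → C // Val pt K L c} → Prop)
    (hQ : ∀ (ω ω' : {c : X → C // Val pt K L c}) (x' : X), pt x' = pt x0 → ω.1 x0 = b0 → Q ω →
      ω'.1 = ω.1 ∘ Equiv.swap x0 x' → Q ω') :
    (cnt (fun ω : {c : X → C // Val pt K L c} => ω.1 x0 = b0 ∧ Q ω) : ℝ) ≤
      μ (pt x0) b0 * (cnt Q : ℝ) := by
  rw [← cnt_eq, ← cnt_eq]
  obtain ⟨A, hA⟩ : ∃ A, A = univ.filter (fun ω : {c : X → C // Val pt K L c} =>
    ω.1 x0 = b0 ∧ Q ω) := ⟨_, rfl⟩
  have hAm : ∀ ω, ω ∈ A ↔ ω.1 x0 = b0 ∧ Q ω := by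
    intro ω
    rw [hA, mem_filter]
    simp only [mem_univ, true_and]
  rw [← hA]
  let D : {c : X → C // Val pt K L c} → Finset X := fun ω =>
    (L (pt x0) b0).filter (fun x' => ω.1 x' ∉ Hv (pt x0))
  have hD : ∀ ω ∈ A, ((L (pt x0) b0).card : ℝ) - (Hv (pt x0)).card ≤ ((D ω).card : ℝ) := by
    intro ω _
    have h1 : ((L (pt x0) b0).filter (fun x' => ω.1 x' ∈ Hv (pt x0))).card ≤
        (Hv (pt x0)).card := by
      refine card_le_card_of_injOn (fun x' => ω.1 x') (fun x' hx' => (mem_filter.mp hx').2) ?_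
      intro y hy y' hy' hyy
      have hy1 := h.LS _ b0 hb0 y (mem_filter.mp hy).1
      have hy2 := h.LS _ b0 hb0 y' (mem_filter.mp hy').1
      exact ω.2.2 y y' (hy1.trans hy2.symm) hyy
    have h2 := card_filter_add_card_filter_not (s := L (pt x0) b0)
      (fun x' => ω.1 x' ∈ Hv (pt x0))
    have h3 : (L (pt x0) b0).card ≤ (Hv (pt x0)).card + (D ω).card := by
      change (L (pt x0) b0).card ≤ (Hv (pt x0)).card +
        ((L (pt x0) b0).filter (fun x' => ω.1 x' ∉ Hv (pt x0))).card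
      omega
    have h4 : ((L (pt x0) b0).card : ℝ) ≤ (Hv (pt x0)).card + (D ω).card := by exact_mod_cast h3
    linarith
  -- the switching map
  have hval : ∀ ω ∈ A, ∀ x' ∈ D ω, Val pt K L (ω.1 ∘ Equiv.swap x0 x') := by
    intro ω hω x' hx'
    have h1 := mem_filter.mp hx'
    have h2 := h.LS _ b0 hb0 x' h1.1
    refine val_swap ω.2 h2 ?_ ?_
    · have h3 := (ω.2.1 x').1
      rw [h2] at h3
      exact h.Ll _ _ h3 h1.2 x0 rfl
    · rw [((hAm ω).mp hω).1]
      exact h1.1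
  have hcard : (A.sigma D).card ≤ (univ.filter Q).card := by
    refine card_le_card_of_injOn (fun p => if hp : Val pt K L (p.1.1 ∘ Equiv.swap x0 p.2) then
      ⟨p.1.1 ∘ Equiv.swap x0 p.2, hp⟩ else p.1) ?_ ?_
    · rintro ⟨ω, x'⟩ hp
      rw [mem_coe, mem_sigma] at hp
      have h1 := hval ω hp.1 x' hp.2
      beta_reduce
      rw [dif_pos h1, mem_coe, mem_filter]
      refine ⟨mem_univ _, ?_⟩
      have h2 := (hAm ω).mp hp.1
      exact hQ ω _ x' (h.LS _ b0 hb0 x' (mem_filter.mp hp.2).1) h2.1 h2.2 rfl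
    · rintro ⟨ω, x'⟩ hp ⟨ω2, x2⟩ hp2 heq
      rw [mem_coe, mem_sigma] at hp hp2
      have h1 := hval ω hp.1 x' hp.2
      have h2 := hval ω2 hp2.1 x2 hp2.2
      beta_reduce at heq
      rw [dif_pos h1, dif_pos h2] at heq
      have h3 : ω.1 ∘ Equiv.swap x0 x' = ω2.1 ∘ Equiv.swap x0 x2 := congrArg Subtype.val heq
      have hb : ω.1 x0 = b0 := ((hAm ω).mp hp.1).1
      have hb2 : ω2.1 x0 = b0 := ((hAm ω2).mp hp2.1).1
      have hx : x' = x2 := by
        have h4 : (ω.1 ∘ Equiv.swap x0 x') x' = b0 := by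
          rw [Function.comp_apply, Equiv.swap_apply_right, hb]
        have h5 : (ω.1 ∘ Equiv.swap x0 x') x2 = b0 := by
          rw [h3, Function.comp_apply, Equiv.swap_apply_right, hb2]
        have hq1 := h.LS _ b0 hb0 x' (mem_filter.mp hp.2).1
        have hq2 := h.LS _ b0 hb0 x2 (mem_filter.mp hp2.2).1
        exact h1.2 x' x2 (hq1.trans hq2.symm) (h4.trans h5.symm)
      subst hx
      have hω : ω = ω2 := by
        apply Subtype.ext
        funext y
        have h4 := congrFun h3 (Equiv.swap x0 x' y)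
        rw [Function.comp_apply, Function.comp_apply, Equiv.swap_apply_self] at h4
        exact h4
      rw [hω]
  have hsum : (A.card : ℝ) * (((L (pt x0) b0).card : ℝ) - (Hv (pt x0)).card) ≤
      ((univ.filter Q).card : ℝ) := by
    have h1 : (A.card : ℝ) * (((L (pt x0) b0).card : ℝ) - (Hv (pt x0)).card) ≤
        ∑ ω ∈ A, ((D ω).card : ℝ) := by
      have h2 := sum_le_sum hD
      rwa [sum_const, nsmul_eq_mul] at h2
    rw [card_sigma] at hcard
    have h3 : ∑ ω ∈ A, ((D ω).card : ℝ) ≤ ((univ.filter Q).card : ℝ) := by exact_mod_cast hcard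
    linarith
  have h1 := h.μL _ b0 hb0
  have h2 := h.μp _ b0 hb0
  have h3 := mul_le_mul_of_nonneg_left hsum h2.le
  have h4 := mul_le_mul_of_nonneg_left h1 (Nat.cast_nonneg A.card : (0 : ℝ) ≤ A.card)
  nlinarith only [h3, h4]

/-! ## The events -/

/-- `A` holds for `c` -/
def Ev (A : Finset (X × C)) (c : X → C) : Prop := ∀ a ∈ A, c a.1 = a.2

/-- the atom `a` may occur -/
def Ok (pt : X → I) (K : I → Finset C) (L : I → C → Finset X) (a : X × C) : Prop :=
  a.2 ∈ K (pt a.1) ∧ a.1 ∈ L (pt a.1) a.2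

/-- the bad events -/
def Fam (pt : X → I) (K : I → Finset C) (L : I → C → Finset X) (bad : X → C → Prop)
    (Gs : SimpleGraph X) (A : Finset (X × C)) : Prop :=
  (∃ x b, A = {(x, b)} ∧ Ok pt K L (x, b) ∧ bad x b) ∨
    ∃ x x' b, A = {(x, b), (x', b)} ∧ Ok pt K L (x, b) ∧ Ok pt K L (x', b) ∧ Gs.Adj x x'

/-- two events touch -/
def Tch (pt : X → I) (A B : Finset (X × C)) : Prop :=
  ∃ a ∈ A, ∃ b ∈ B, a.1 = b.1 ∨ (pt a.1 = pt b.1 ∧ a.2 = b.2)

/-- the probability of an event -/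
noncomputable def pp (pt : X → I) (μ : I → C → ℝ) (A : Finset (X × C)) : ℝ :=
  ∏ a ∈ A, μ (pt a.1) a.2

omit [Fintype X] [Fintype C] in
/-- the condition no event of `S` survives a switching -/
theorem no_ev {S : Finset (Finset (X × C))} {x0 x' : X} {b0 : C} (hp : pt x' = pt x0)
    (hS : ∀ B ∈ S, ∀ b ∈ B, b.1 ≠ x0 ∧ ¬ (pt b.1 = pt x0 ∧ b.2 = b0)) {c : X → C}
    (hc : c x0 = b0) (h : ∀ B ∈ S, ¬ Ev B c) : ∀ B ∈ S, ¬ Ev B (c ∘ Equiv.swap x0 x') := by
  intro B hB hE
  apply h B hB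
  intro b hb
  have h1 := hE b hb
  obtain ⟨h2, h3⟩ := hS B hB b hb
  by_cases h4 : b.1 = x'
  · exfalso
    rw [h4, Function.comp_apply, Equiv.swap_apply_right, hc] at h1
    exact h3 ⟨by rw [h4, hp], h1.symm⟩
  · rw [Function.comp_apply, Equiv.swap_apply_of_ne_of_ne h2 h4] at h1
    exact h1

/-- lopsided bound -/
theorem lop (h : LSH pt K Hv L μ bad Gs) (A : Finset (X × C)) (hA : Fam pt K L bad Gs A)
    (S : Finset (Finset (X × C))) (hS : ∀ B ∈ S, ¬ Tch pt A B) :
    (cnt (fun ω : {c : X → C // Val pt K L c} => Ev A ω.1 ∧ ∀ B ∈ S, ¬ Ev B ω.1) : ℝ) ≤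
      pp pt μ A * (cnt (fun ω : {c : X → C // Val pt K L c} => ∀ B ∈ S, ¬ Ev B ω.1) : ℝ) := by
  rcases hA with ⟨x, b, rfl, hok, -⟩ | ⟨x, x', b, rfl, hok, hok', hG⟩
  · have h1 : ∀ B ∈ S, ∀ a ∈ B, a.1 ≠ x ∧ ¬ (pt a.1 = pt x ∧ a.2 = b) := by
      intro B hB a ha
      refine ⟨fun h2 => hS B hB ⟨(x, b), mem_singleton_self _, a, ha, Or.inl h2.symm⟩,
        fun h2 => hS B hB ⟨(x, b), mem_singleton_self _, a, ha, Or.inr ⟨h2.1.symm, h2.2.symm⟩⟩⟩
    have h2 := switch h x b hok.1 (fun ω => ∀ B ∈ S, ¬ Ev B ω.1) (by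
      intro ω ω' y hy hx hQ hω'
      rw [hω']
      exact no_ev hy h1 hx hQ)
    have h3 : pp pt μ {(x, b)} = μ (pt x) b := prod_singleton _ _
    rw [h3]
    have h4 : (fun ω : {c : X → C // Val pt K L c} => Ev {(x, b)} ω.1 ∧ ∀ B ∈ S, ¬ Ev B ω.1) =
        (fun ω => ω.1 x = b ∧ ∀ B ∈ S, ¬ Ev B ω.1) := by
      funext ω
      apply propext
      constructor
      · exact fun h => ⟨h.1 (x, b) (mem_singleton_self _), h.2⟩
      · intro h
        refine ⟨?_, h.2⟩
        intro a ha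
        rw [mem_singleton] at ha
        rw [ha]
        exact h.1
    rw [h4]
    exact h2
  · have hne : pt x ≠ pt x' := h.gs x x' hG
    have hm1 : (x, b) ∈ ({(x, b), (x', b)} : Finset (X × C)) := mem_insert_self _ _
    have hm2 : (x', b) ∈ ({(x, b), (x', b)} : Finset (X × C)) :=
      mem_insert_of_mem (mem_singleton_self _)
    have h1 : ∀ B ∈ S, ∀ a ∈ B, a.1 ≠ x ∧ ¬ (pt a.1 = pt x ∧ a.2 = b) := by
      intro B hB a ha
      exact ⟨fun h2 => hS B hB ⟨(x, b), hm1, a, ha, Or.inl h2.symm⟩,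
        fun h2 => hS B hB ⟨(x, b), hm1, a, ha, Or.inr ⟨h2.1.symm, h2.2.symm⟩⟩⟩
    have h1' : ∀ B ∈ S, ∀ a ∈ B, a.1 ≠ x' ∧ ¬ (pt a.1 = pt x' ∧ a.2 = b) := by
      intro B hB a ha
      exact ⟨fun h2 => hS B hB ⟨(x', b), hm2, a, ha, Or.inl h2.symm⟩,
        fun h2 => hS B hB ⟨(x', b), hm2, a, ha, Or.inr ⟨h2.1.symm, h2.2.symm⟩⟩⟩
    have h2 := switch h x b hok.1 (fun ω => ω.1 x' = b ∧ ∀ B ∈ S, ¬ Ev B ω.1) (by
      intro ω ω' y hy hx hQ hω'
      rw [hω']
      refine ⟨?_, no_ev hy h1 hx hQ.2⟩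
      rw [Function.comp_apply, Equiv.swap_apply_of_ne_of_ne]
      · exact hQ.1
      · intro h3
        exact hne (congrArg pt h3).symm
      · intro h3
        exact hne (by rw [h3, hy]))
    have h3 := switch h x' b hok'.1 (fun ω => ∀ B ∈ S, ¬ Ev B ω.1) (by
      intro ω ω' y hy hx hQ hω'
      rw [hω']
      exact no_ev hy h1' hx hQ)
    have h4 : pp pt μ {(x, b), (x', b)} = μ (pt x) b * μ (pt x') b := by
      unfold pp
      rw [prod_pair]
      intro h5
      exact hne (congrArg pt (congrArg Prod.fst h5))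
    rw [h4]
    have h5 := mul_le_mul_of_nonneg_left h3 (h.μp (pt x) b hok.1).le
    have h6 : (fun ω : {c : X → C // Val pt K L c} =>
        Ev {(x, b), (x', b)} ω.1 ∧ ∀ B ∈ S, ¬ Ev B ω.1) =
        (fun ω => ω.1 x = b ∧ (ω.1 x' = b ∧ ∀ B ∈ S, ¬ Ev B ω.1)) := by
      funext ω
      apply propext
      constructor
      · exact fun h => ⟨h.1 (x, b) hm1, h.1 (x', b) hm2, h.2⟩
      · intro h
        refine ⟨?_, h.2.2⟩
        intro a ha
        rw [mem_insert, mem_singleton] at ha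
        rcases ha with rfl | rfl
        · exact h.1
        · exact h.2.1
    rw [h6, mul_assoc]
    exact h2.trans h5

theorem sum_image_le' {α β : Type u} [DecidableEq β] (s : Finset α) (f : α → β) (g : β → ℝ)
    (hg : ∀ a ∈ s, 0 ≤ g (f a)) : ∑ b ∈ s.image f, g b ≤ ∑ a ∈ s, g (f a) := by
  rw [sum_comp g f]
  refine sum_le_sum fun b hb => ?_
  obtain ⟨a, ha, rfl⟩ := mem_image.mp hb
  rw [nsmul_eq_mul]
  have h1 : 1 ≤ (s.filter (fun a' => f a' = f a)).card :=
    card_pos.mpr ⟨a, mem_filter.mpr ⟨ha, rfl⟩⟩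
  have h2 : (1 : ℝ) ≤ ((s.filter (fun a' => f a' = f a)).card : ℝ) := by exact_mod_cast h1
  have h3 := mul_le_mul_of_nonneg_right h2 (hg a ha)
  linarith

omit [Fintype X] [Fintype C] in
theorem pp_pair (hne : ∀ x x', Gs.Adj x x' → pt x ≠ pt x') {x x' : X} (b : C)
    (h : Gs.Adj x x') : pp pt μ {(x, b), (x', b)} = μ (pt x) b * μ (pt x') b := by
  unfold pp
  rw [prod_pair]
  intro h5
  exact hne x x' h (congrArg pt (congrArg Prod.fst h5))

theorem pp_nonneg (h : LSH pt K Hv L μ bad Gs) {A : Finset (X × C)}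
    (hA : Fam pt K L bad Gs A) : 0 ≤ pp pt μ A := by
  rcases hA with ⟨x, b, rfl, hok, -⟩ | ⟨x, x', b, rfl, hok, hok', hG⟩
  · have h3 : pp pt μ {(x, b)} = μ (pt x) b := prod_singleton _ _
    rw [h3]
    exact (h.μp _ b hok.1).le
  · rw [pp_pair h.gs b hG]
    exact mul_nonneg (h.μp _ b hok.1).le (h.μp _ b hok'.1).le

/-- events touching a row -/
theorem row_sum (h : LSH pt K Hv L μ bad Gs) (x : X) (T : Finset (Finset (X × C)))
    (hT : ∀ A ∈ T, Fam pt K L bad Gs A ∧ ∃ a ∈ A, a.1 = x) :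
    ∑ A ∈ T, pp pt μ A ≤ 1 / 25 := by
  let R1 : Finset (Finset (X × C)) :=
    ((K (pt x)).filter (fun b => x ∈ L (pt x) b ∧ bad x b)).image (fun b => {(x, b)})
  let I2 : Finset ((_ : X) × C) := (nb Gs x).sigma (fun x' => (K (pt x)).filter (fun b =>
    x ∈ L (pt x) b ∧ b ∈ K (pt x') ∧ x' ∈ L (pt x') b))
  let R2 : Finset (Finset (X × C)) := I2.image (fun p => {(x, p.2), (p.1, p.2)})
  have hsub : T ⊆ R1 ∪ R2 := by
    intro A hA
    obtain ⟨hF, a, ha, hax⟩ := hT A hA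
    rw [mem_union]
    rcases hF with ⟨y, b, rfl, hok, hb⟩ | ⟨y, y', b, rfl, hok, hok', hG⟩
    · left
      rw [mem_singleton] at ha
      subst ha
      change y = x at hax
      subst hax
      exact mem_image.mpr ⟨b, mem_filter.mpr ⟨hok.1, hok.2, hb⟩, rfl⟩
    · right
      rw [mem_insert, mem_singleton] at ha
      rcases ha with rfl | rfl
      · change y = x at hax
        subst hax
        refine mem_image.mpr ⟨⟨y', b⟩, mem_sigma.mpr ⟨?_, ?_⟩, rfl⟩
        · exact mem_filter.mpr ⟨mem_univ _, hG⟩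
        · exact mem_filter.mpr ⟨hok.1, hok.2, hok'.1, hok'.2⟩
      · change y' = x at hax
        subst hax
        refine mem_image.mpr ⟨⟨y, b⟩, mem_sigma.mpr ⟨?_, ?_⟩, ?_⟩
        · exact mem_filter.mpr ⟨mem_univ _, hG.symm⟩
        · exact mem_filter.mpr ⟨hok'.1, hok'.2, hok.1, hok.2⟩
        · exact pair_comm _ _
  have hR1 : ∀ b ∈ (K (pt x)).filter (fun b => x ∈ L (pt x) b ∧ bad x b),
      pp pt μ {(x, b)} = μ (pt x) b := fun b _ => prod_singleton _ _
  have hR2 : ∀ p ∈ I2, pp pt μ {(x, p.2), (p.1, p.2)} = μ (pt x) p.2 * μ (pt p.1) p.2 := by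
    intro p hp
    have hp' := (mem_sigma.mp hp).1
    exact pp_pair h.gs p.2 (mem_filter.mp hp').2
  have hn1 : ∀ b ∈ (K (pt x)).filter (fun b => x ∈ L (pt x) b ∧ bad x b),
      0 ≤ pp pt μ {(x, b)} := by
    intro b hb
    rw [hR1 b hb]
    exact (h.μp _ b (mem_filter.mp hb).1).le
  have hn2 : ∀ p ∈ I2, 0 ≤ pp pt μ {(x, p.2), (p.1, p.2)} := by
    intro p hp
    rw [hR2 p hp]
    have hp' := mem_filter.mp (mem_sigma.mp hp).2
    exact mul_nonneg (h.μp _ _ hp'.1).le (h.μp _ _ hp'.2.2.1).le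
  have h1 : ∑ A ∈ T, pp pt μ A ≤ ∑ A ∈ R1 ∪ R2, pp pt μ A := by
    refine sum_le_sum_of_subset_of_nonneg hsub ?_
    intro A hA _
    rw [mem_union] at hA
    rcases hA with hA | hA
    · obtain ⟨b, hb, rfl⟩ := mem_image.mp hA
      exact hn1 b hb
    · obtain ⟨p, hp, rfl⟩ := mem_image.mp hA
      exact hn2 p hp
  have h2 : ∑ A ∈ R1 ∪ R2, pp pt μ A ≤ ∑ A ∈ R1, pp pt μ A + ∑ A ∈ R2, pp pt μ A := by
    rw [← sum_union_inter]
    have : 0 ≤ ∑ A ∈ R1 ∩ R2, pp pt μ A := by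
      refine sum_nonneg fun A hA => ?_
      obtain ⟨b, hb, rfl⟩ := mem_image.mp (mem_inter.mp hA).1
      exact hn1 b hb
    linarith
  have h3 : ∑ A ∈ R1, pp pt μ A ≤
      ∑ b ∈ (K (pt x)).filter (fun b => x ∈ L (pt x) b ∧ bad x b), μ (pt x) b := by
    refine (sum_image_le' _ _ _ hn1).trans (le_of_eq ?_)
    exact sum_congr rfl hR1
  have h4 : ∑ A ∈ R2, pp pt μ A ≤ ∑ x' ∈ nb Gs x, ∑ b ∈ (K (pt x)).filter (fun b =>
      x ∈ L (pt x) b ∧ b ∈ K (pt x') ∧ x' ∈ L (pt x') b), μ (pt x) b * μ (pt x') b := by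
    refine (sum_image_le' _ _ _ hn2).trans (le_of_eq ?_)
    rw [sum_congr rfl hR2]
    exact sum_sigma _ _ _
  have h5 := h.row x
  linarith

/-- events touching a column -/
theorem col_sum (h : LSH pt K Hv L μ bad Gs) (i : I) (b : C) (hb : b ∈ K i)
    (T : Finset (Finset (X × C)))
    (hT : ∀ A ∈ T, Fam pt K L bad Gs A ∧ ∃ a ∈ A, pt a.1 = i ∧ a.2 = b) :
    ∑ A ∈ T, pp pt μ A ≤ 1 / 25 := by
  let R1 : Finset (Finset (X × C)) :=
    ((L i b).filter (fun x => bad x b)).image (fun x => {(x, b)})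
  let I2 : Finset ((_ : X) × X) := (L i b).sigma (fun x => (nb Gs x).filter (fun x' =>
    b ∈ K (pt x') ∧ x' ∈ L (pt x') b))
  let R2 : Finset (Finset (X × C)) := I2.image (fun p => {(p.1, b), (p.2, b)})
  have hsub : T ⊆ R1 ∪ R2 := by
    intro A hA
    obtain ⟨hF, a, ha, hai, hab⟩ := hT A hA
    rw [mem_union]
    rcases hF with ⟨y, b', rfl, hok, hbd⟩ | ⟨y, y', b', rfl, hok, hok', hG⟩
    · left
      rw [mem_singleton] at ha
      subst ha
      change pt y = i at hai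
      change b' = b at hab
      subst hab
      subst hai
      exact mem_image.mpr ⟨y, mem_filter.mpr ⟨hok.2, hbd⟩, rfl⟩
    · right
      rw [mem_insert, mem_singleton] at ha
      rcases ha with rfl | rfl
      · change pt y = i at hai
        change b' = b at hab
        subst hab
        subst hai
        refine mem_image.mpr ⟨⟨y, y'⟩, mem_sigma.mpr ⟨hok.2, ?_⟩, rfl⟩
        exact mem_filter.mpr ⟨mem_filter.mpr ⟨mem_univ _, hG⟩, hok'.1, hok'.2⟩
      · change pt y' = i at hai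
        change b' = b at hab
        subst hab
        subst hai
        refine mem_image.mpr ⟨⟨y', y⟩, mem_sigma.mpr ⟨hok'.2, ?_⟩, ?_⟩
        · exact mem_filter.mpr ⟨mem_filter.mpr ⟨mem_univ _, hG.symm⟩, hok.1, hok.2⟩
        · exact pair_comm _ _
  have hLp : ∀ x ∈ L i b, pt x = i := h.LS i b hb
  have hR1 : ∀ x ∈ (L i b).filter (fun x => bad x b), pp pt μ {(x, b)} = μ i b := by
    intro x hx
    have h1 : pp pt μ {(x, b)} = μ (pt x) b := prod_singleton _ _
    rw [h1, hLp x (mem_filter.mp hx).1]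
  have hR2 : ∀ p ∈ I2, pp pt μ {(p.1, b), (p.2, b)} = μ i b * μ (pt p.2) b := by
    intro p hp
    have hp' := mem_sigma.mp hp
    rw [pp_pair h.gs b (mem_filter.mp (mem_filter.mp hp'.2).1).2, hLp _ hp'.1]
  have hn1 : ∀ x ∈ (L i b).filter (fun x => bad x b), 0 ≤ pp pt μ {(x, b)} := by
    intro x hx
    rw [hR1 x hx]
    exact (h.μp _ b hb).le
  have hn2 : ∀ p ∈ I2, 0 ≤ pp pt μ {(p.1, b), (p.2, b)} := by
    intro p hp
    rw [hR2 p hp]
    have hp' := mem_filter.mp (mem_sigma.mp hp).2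
    exact mul_nonneg (h.μp _ _ hb).le (h.μp _ _ hp'.2.1).le
  have h1 : ∑ A ∈ T, pp pt μ A ≤ ∑ A ∈ R1 ∪ R2, pp pt μ A := by
    refine sum_le_sum_of_subset_of_nonneg hsub ?_
    intro A hA _
    rw [mem_union] at hA
    rcases hA with hA | hA
    · obtain ⟨x, hx, rfl⟩ := mem_image.mp hA
      exact hn1 x hx
    · obtain ⟨p, hp, rfl⟩ := mem_image.mp hA
      exact hn2 p hp
  have h2 : ∑ A ∈ R1 ∪ R2, pp pt μ A ≤ ∑ A ∈ R1, pp pt μ A + ∑ A ∈ R2, pp pt μ A := by
    rw [← sum_union_inter]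
    have : 0 ≤ ∑ A ∈ R1 ∩ R2, pp pt μ A := by
      refine sum_nonneg fun A hA => ?_
      obtain ⟨b, hb, rfl⟩ := mem_image.mp (mem_inter.mp hA).1
      exact hn1 b hb
    linarith
  have h3 : ∑ A ∈ R1, pp pt μ A ≤ ∑ _x ∈ (L i b).filter (fun x => bad x b), μ i b := by
    refine (sum_image_le' _ _ _ hn1).trans (le_of_eq ?_)
    exact sum_congr rfl hR1
  have h4 : ∑ A ∈ R2, pp pt μ A ≤ ∑ x ∈ L i b, ∑ x' ∈ (nb Gs x).filter (fun x' =>
      b ∈ K (pt x') ∧ x' ∈ L (pt x') b), μ i b * μ (pt x') b := by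
    refine (sum_image_le' _ _ _ hn2).trans (le_of_eq ?_)
    rw [sum_congr rfl hR2]
    exact sum_sigma _ _ _
  have h5 := h.col i b hb
  linarith

/-- all events touching `A` -/
theorem tch_sum (h : LSH pt K Hv L μ bad Gs) (A : Finset (X × C)) (hA : Fam pt K L bad Gs A)
    (T : Finset (Finset (X × C))) (hT : ∀ B ∈ T, Fam pt K L bad Gs B ∧ Tch pt A B) :
    ∑ B ∈ T, pp pt μ B ≤ 4 / 25 := by
  have hok : ∀ a ∈ A, Ok pt K L a := by
    rcases hA with ⟨x, b, rfl, hok, -⟩ | ⟨x, x', b, rfl, hok, hok', hG⟩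
    · intro a ha
      rw [mem_singleton] at ha
      rw [ha]
      exact hok
    · intro a ha
      rw [mem_insert, mem_singleton] at ha
      rcases ha with rfl | rfl
      · exact hok
      · exact hok'
  have hcard : A.card ≤ 2 := by
    rcases hA with ⟨x, b, rfl, -, -⟩ | ⟨x, x', b, rfl, -, -, -⟩
    · rw [card_singleton]; norm_num
    · exact card_le_two
  have hn : ∀ B ∈ T, 0 ≤ pp pt μ B := fun B hB => pp_nonneg h (hT B hB).1
  have h1 : ∑ B ∈ T, pp pt μ B ≤ ∑ a ∈ A, (∑ B ∈ T.filter (fun B => ∃ b ∈ B, b.1 = a.1),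
      pp pt μ B + ∑ B ∈ T.filter (fun B => ∃ b ∈ B, pt b.1 = pt a.1 ∧ b.2 = a.2),
        pp pt μ B) := by
    have h2 : ∀ B ∈ T, pp pt μ B ≤ ∑ a ∈ A, ((if ∃ b ∈ B, b.1 = a.1 then pp pt μ B else 0) +
        (if ∃ b ∈ B, pt b.1 = pt a.1 ∧ b.2 = a.2 then pp pt μ B else 0)) := by
      intro B hB
      obtain ⟨a, ha, b, hb, hab⟩ := (hT B hB).2
      have h3 : pp pt μ B ≤ (if ∃ b ∈ B, b.1 = a.1 then pp pt μ B else 0) +
        (if ∃ b ∈ B, pt b.1 = pt a.1 ∧ b.2 = a.2 then pp pt μ B else 0) := by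
        have hB0 := hn B hB
        rcases hab with hab | hab
        · rw [if_pos ⟨b, hb, hab.symm⟩]
          split_ifs
          · linarith
          · linarith
        · rw [if_pos (⟨b, hb, hab.1.symm, hab.2.symm⟩ :
            ∃ b ∈ B, pt b.1 = pt a.1 ∧ b.2 = a.2)]
          split_ifs
          · linarith
          · linarith
      refine h3.trans (single_le_sum (f := fun a => ((if ∃ b ∈ B, b.1 = a.1 then pp pt μ B
        else 0) + (if ∃ b ∈ B, pt b.1 = pt a.1 ∧ b.2 = a.2 then pp pt μ B else 0))) ?_ ha)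
      intro a' _
      have hB0 := hn B hB
      split_ifs <;> linarith
    refine (sum_le_sum h2).trans (le_of_eq ?_)
    rw [sum_comm]
    refine sum_congr rfl fun a _ => ?_
    rw [sum_add_distrib, sum_filter, sum_filter]
  have h2 : ∀ a ∈ A, (∑ B ∈ T.filter (fun B => ∃ b ∈ B, b.1 = a.1), pp pt μ B +
      ∑ B ∈ T.filter (fun B => ∃ b ∈ B, pt b.1 = pt a.1 ∧ b.2 = a.2), pp pt μ B) ≤ 2 / 25 := by
    intro a ha
    have h3 := row_sum h a.1 (T.filter (fun B => ∃ b ∈ B, b.1 = a.1)) (fun B hB =>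
      ⟨(hT B (mem_filter.mp hB).1).1, (mem_filter.mp hB).2⟩)
    have h4 := col_sum h (pt a.1) a.2 (hok a ha).1
      (T.filter (fun B => ∃ b ∈ B, pt b.1 = pt a.1 ∧ b.2 = a.2)) (fun B hB =>
      ⟨(hT B (mem_filter.mp hB).1).1, (mem_filter.mp hB).2⟩)
    linarith
  have h3 := sum_le_sum h2
  rw [sum_const, nsmul_eq_mul] at h3
  have h4 : (A.card : ℝ) ≤ 2 := by exact_mod_cast hcard
  have h5 := mul_le_mul_of_nonneg_right h4 (by norm_num : (0 : ℝ) ≤ 2 / 25)
  linarith

end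

/-- **LSB** -/
theorem stmt_LSB_of (hAL : Stmt_AL.{u, u}) : Stmt_LSB.{u} := by
  intro I X C _ _ pt K Hv L μ bad Gs h
  obtain ⟨c0, hc0⟩ := exists_val h
  have : Nonempty {c : X → C // Val pt K L c} := ⟨⟨c0, hc0⟩⟩
  obtain ⟨ω, hω⟩ := hAL {c : X → C // Val pt K L c} {A : Finset (X × C) // Fam pt K L bad Gs A}
    (fun A ω => Ev A.1 ω.1) (fun A B => Tch pt A.1 B.1) (fun A => pp pt μ A.1)
    (fun A => 2 * pp pt μ A.1) (fun A => by
      have := pp_nonneg h A.2
      linarith) (fun A => by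
      have h1 : ∃ a ∈ A.1, True := by
        rcases A.2 with ⟨x, b, hA, -, -⟩ | ⟨x, x', b, hA, -, -, -⟩
        · exact ⟨(x, b), by rw [hA]; exact mem_singleton_self _, trivial⟩
        · exact ⟨(x, b), by rw [hA]; exact mem_insert_self _ _, trivial⟩
      obtain ⟨a, ha, -⟩ := h1
      have h2 := row_sum h a.1 {A.1} (fun B hB => by
        rw [mem_singleton] at hB
        subst hB
        exact ⟨A.2, a, ha, rfl⟩)
      rw [sum_singleton] at h2
      linarith) (fun A S hS => by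
      have h1 := lop h A.1 A.2 (S.image Subtype.val) (by
        intro B hB
        obtain ⟨B', hB', rfl⟩ := mem_image.mp hB
        exact hS B' hB')
      have h2 : ∀ ω : {c : X → C // Val pt K L c}, (∀ B ∈ S.image Subtype.val, ¬ Ev B ω.1) ↔
          ∀ k ∈ S, ¬ Ev k.1 ω.1 := by
        intro ω
        exact forall_mem_image
      simp only [h2] at h1
      rw [cnt_eq, cnt_eq]
      exact h1) (fun A => by
      have h1 := tch_sum h A.1 A.2 ((univ.filter (fun k : {A : Finset (X × C) //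
        Fam pt K L bad Gs A} => Tch pt A.1 k.1)).image Subtype.val) (by
          intro B hB
          obtain ⟨B', hB', rfl⟩ := mem_image.mp hB
          exact ⟨B'.2, (mem_filter.mp hB').2⟩)
      rw [sum_image (fun a _ b _ hab => Subtype.ext hab)] at h1
      have h2 : 2 * ∑ k ∈ univ.filter (fun k : {A : Finset (X × C) // Fam pt K L bad Gs A} =>
          Tch pt A.1 k.1), (2 * pp pt μ k.1) ≤ Real.log 2 := by
        rw [← mul_sum]
        have := Real.log_two_gt_d9
        linarith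
      have h3 := Real.exp_le_exp.mpr h2
      rw [Real.exp_log (by norm_num)] at h3
      have h4 := mul_le_mul_of_nonneg_left h3 (pp_nonneg h A.2)
      linarith)
  refine ⟨ω.1, ?_, ω.2.2, ?_⟩
  · intro x
    refine ⟨(ω.2.1 x).1, (ω.2.1 x).2, fun hb => ?_⟩
    refine hω ⟨{(x, ω.1 x)}, Or.inl ⟨x, ω.1 x, rfl, ω.2.1 x, hb⟩⟩ ?_
    intro a ha
    rw [mem_singleton] at ha
    rw [ha]
  · intro x x' hG hcc
    refine hω ⟨{(x, ω.1 x), (x', ω.1 x)}, Or.inr ⟨x, x', ω.1 x, rfl, ω.2.1 x, ?_, hG⟩⟩ ?_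
    · have h1 := ω.2.1 x'
      rw [← hcc] at h1
      exact h1
    · intro a ha
      rw [mem_insert, mem_singleton] at ha
      rcases ha with rfl | rfl
      · rfl
      · exact hcc.symm

theorem stmt_LSB : Stmt_LSB.{u} := stmt_LSB_of Pool.Agent.Work.MP_db9399_all.stmt_AL

end Pool.Agent.Work.MP_db9399_vt.helper94.LSB
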