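import Pool.Agent.Work.MP_db9399_vt.Interface
import Pool.Agent.Work.MP_db9399_bg.Base

/-! # MP_db9399 PHASE 2, block OWN, part 1: graph lemmas (helper94) -/

set_option autoImplicit false

namespace Pool.Agent.Work.MP_db9399_vt.helper94

open Finset Classical
open Pool.Agent.Work.MP_db9399_all (nb mis)
open Pool.Agent.Work.MP_db9399_px (ee)
open Pool.Agent.Work.MP_db9399_bg (den cl mem_nb mem_cl)
open Pool.Agent.Work.MP_db9399_sl (InS Same Gout Nsc)
open Pool.Agent.Work.MP_db9399_vt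

universe u

variable {V : Type u} [Fintype V]

/-- number of missing pairs -/
theorem mis_ge (G : SimpleGraph V) (A : Finset V) :
    (A.card : ℝ) ^ 2 ≤ (mis G A).card + A.card + ee G A A := by
  have h1 : A ×ˢ A ⊆ mis G A ∪ (A.image (fun a => (a, a)) ∪
      A.biUnion (fun a => (nb G a ∩ A).image (fun b => (a, b)))) := by
    rintro ⟨a, b⟩ hab
    rw [mem_product] at hab
    rw [mem_union, mem_union]
    by_cases h2 : a = b
    · subst h2
      exact Or.inr (Or.inl (mem_image.2 ⟨a, hab.1, rfl⟩))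
    · by_cases h3 : G.Adj a b
      · refine Or.inr (Or.inr (mem_biUnion.2 ⟨a, hab.1, mem_image.2 ⟨b, ?_, rfl⟩⟩))
        exact mem_inter.2 ⟨mem_nb.2 h3, hab.2⟩
      · refine Or.inl ?_
        unfold mis
        exact mem_filter.2 ⟨mem_product.2 hab, h2, h3⟩
  have h2 := (card_le_card h1).trans ((card_union_le _ _).trans
    (Nat.add_le_add_left (card_union_le _ _) _))
  have h3 : (A.biUnion (fun a => (nb G a ∩ A).image (fun b => (a, b)))).card ≤
      ∑ a ∈ A, (nb G a ∩ A).card :=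
    card_biUnion_le.trans (sum_le_sum fun a _ => card_image_le)
  have h4 : (A.image (fun a => (a, a))).card ≤ A.card := card_image_le
  rw [card_product] at h2
  have h5 : A.card * A.card ≤ (mis G A).card + (A.card + ∑ a ∈ A, (nb G a ∩ A).card) := by omega
  have h6 : ((A.card * A.card : ℕ) : ℝ) ≤
      (((mis G A).card + (A.card + ∑ a ∈ A, (nb G a ∩ A).card) : ℕ) : ℝ) := by exact_mod_cast h5
  unfold ee
  push_cast at h6
  nlinarith

/-- double counting -/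
theorem dbl (G : SimpleGraph V) (A B : Finset V) :
    ∑ a ∈ A, (nb G a ∩ B).card = ∑ b ∈ B, (nb G b ∩ A).card := by
  have h : ∀ (a : V) (X : Finset V), (nb G a ∩ X).card = ∑ x ∈ X, if G.Adj a x then 1 else 0 := by
    intro a X
    rw [sum_boole, Nat.cast_id]
    congr 1
    ext x
    rw [mem_inter, mem_nb, mem_filter]
    exact and_comm
  simp only [h]
  rw [sum_comm]
  refine sum_congr rfl fun b _ => sum_congr rfl fun a _ => ?_
  simp only [G.adj_comm]

theorem dblR (G : SimpleGraph V) (A B : Finset V) :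
    ∑ a ∈ A, ((nb G a ∩ B).card : ℝ) = ∑ b ∈ B, ((nb G b ∩ A).card : ℝ) := by
  exact_mod_cast dbl G A B

/-- the neighbourhood of a vertex in the outer graph is sparse -/
theorem sparse_of_nsc {g : ℝ} {G GO : SimpleGraph V} {d : ℕ} {Ys : Finset (Finset V)}
    (hg : 0 < g) (hg1 : g ≤ 1 / 10) (hd : 0 < d) (hdeg : ∀ v, (nb G v).card ≤ d)
    (hnsc : Nsc g (Gout G Ys) d)
    (hGO : ∀ v w, GO.Adj v w ↔ G.Adj v w ∧ v ∈ outer Ys ∧ w ∈ outer Ys) (v : V) :
    ee GO (nb GO v) (nb GO v) ≤ (1 - g ^ 2 / 16) * (d : ℝ) ^ 2 := by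
  by_contra hcon
  push Not at hcon
  have hdR : (0 : ℝ) < d := by exact_mod_cast hd
  have hdegO : ∀ u, (nb GO u).card ≤ d := by
    intro u
    refine le_trans (card_le_card ?_) (hdeg u)
    intro x hx
    rw [mem_nb] at hx ⊢
    exact ((hGO u x).mp hx).1
  obtain ⟨N, hN⟩ : ∃ N, N = nb GO v := ⟨_, rfl⟩
  rw [← hN] at hcon
  have hNd : N.card ≤ d := hN ▸ hdegO v
  obtain ⟨B, hB⟩ : ∃ B, B = N.filter (fun u => ((nb GO u ∩ N).card : ℝ) < (1 - g / 4) * d) :=
    ⟨_, rfl⟩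
  have hBN : B ⊆ N := hB ▸ filter_subset _ _
  have hsplit : ee GO N N ≤ (d : ℝ) ^ 2 - B.card * (g / 4 * d) := by
    unfold ee
    rw [← sum_sdiff hBN]
    have h1 : ∑ u ∈ N \ B, ((nb GO u ∩ N).card : ℝ) ≤ ∑ _u ∈ N \ B, (d : ℝ) := by
      refine sum_le_sum fun u _ => ?_
      exact_mod_cast (card_le_card inter_subset_left).trans (hdegO u)
    have h2 : ∑ u ∈ B, ((nb GO u ∩ N).card : ℝ) ≤ ∑ _u ∈ B, ((1 - g / 4) * d) := by
      refine sum_le_sum fun u hu => ?_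
      rw [hB, mem_filter] at hu
      exact hu.2.le
    rw [sum_const, nsmul_eq_mul] at h1 h2
    have h3 : ((N \ B).card : ℝ) + B.card ≤ d := by
      have := card_sdiff_add_card_eq_card hBN
      have h4 : (N \ B).card + B.card ≤ d := by omega
      exact_mod_cast h4
    have h5 := mul_le_mul_of_nonneg_right h3 hdR.le
    nlinarith only [h1, h2, h5]
  have hB4 : (B.card : ℝ) < g / 4 * d := by
    have h1 : (B.card : ℝ) * (g / 4 * d) < g ^ 2 / 16 * (d : ℝ) ^ 2 := by linarith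
    have h2 : (B.card : ℝ) * (g / 4 * d) < (g / 4 * d) * (g / 4 * d) := by
      calc (B.card : ℝ) * (g / 4 * d) < g ^ 2 / 16 * (d : ℝ) ^ 2 := h1
        _ = (g / 4 * d) * (g / 4 * d) := by ring
    exact lt_of_mul_lt_mul_right h2 (by positivity)
  obtain ⟨C, hC⟩ : ∃ C, C = N \ B := ⟨_, rfl⟩
  have hCmem : ∀ u ∈ C, u ∈ N ∧ (1 - g / 4) * d ≤ ((nb GO u ∩ N).card : ℝ) := by
    intro u hu
    rw [hC, mem_sdiff] at hu
    refine ⟨hu.1, ?_⟩
    by_contra h
    push Not at h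
    exact hu.2 (by rw [hB, mem_filter]; exact ⟨hu.1, h⟩)
  have hC0 : 0 < C.card := by
    by_contra h
    have h0 : C.card = 0 := by omega
    have h1 := card_sdiff_add_card_eq_card hBN
    rw [← hC, h0, zero_add] at h1
    have h2 : ee GO N N ≤ (N.card : ℝ) * d := by
      unfold ee
      have h3 : ∑ u ∈ N, ((nb GO u ∩ N).card : ℝ) ≤ ∑ _u ∈ N, (d : ℝ) := by
        refine sum_le_sum fun u _ => ?_
        exact_mod_cast (card_le_card inter_subset_left).trans (hdegO u)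
      rwa [sum_const, nsmul_eq_mul] at h3
    rw [← h1] at h2
    have h3 := mul_lt_mul_of_pos_right hB4 hdR
    have h4 : (1 - g ^ 2 / 16) * (d : ℝ) ^ 2 < g / 4 * d * d := by linarith
    have h5 : (0 : ℝ) < (d : ℝ) ^ 2 := by positivity
    have h6 : g / 4 ≤ 1 - g ^ 2 / 16 := by nlinarith only [hg, hg1]
    have h7 := mul_le_mul_of_nonneg_right h6 h5.le
    nlinarith only [h4, h7]
  have hout : ∀ u ∈ C, u ∈ outer Ys := by
    intro u hu
    have h1 := (hCmem u hu).1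
    rw [hN, mem_nb] at h1
    exact ((hGO v u).mp h1).2.2
  have hout' : ∀ u ∈ C, nb (Gout G Ys) u = nb G u := by
    intro u hu
    have h1 := hout u hu
    unfold outer at h1
    rw [mem_filter] at h1
    ext x
    rw [mem_nb, mem_nb]
    constructor
    · exact fun h => h.1
    · exact fun h => ⟨h, fun h2 => h1.2 h2.1⟩
  have hsub : ∀ u, nb GO u ⊆ nb G u := by
    intro u x hx
    rw [mem_nb] at hx ⊢
    exact ((hGO u x).mp hx).1
  have hlow : ∀ u ∈ C, (1 - g / 2) * d ≤ ((nb G u ∩ C).card : ℝ) := by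
    intro u hu
    have h1 := (hCmem u hu).2
    have h2 : (nb GO u ∩ N).card ≤ (nb G u ∩ C).card + B.card := by
      refine le_trans (card_le_card ?_) (card_union_le _ _)
      intro x hx
      rw [mem_inter] at hx
      rw [mem_union, mem_inter, hC, mem_sdiff]
      by_cases hxB : x ∈ B
      · exact Or.inr hxB
      · exact Or.inl ⟨hsub u hx.1, hx.2, hxB⟩
    have h3 : ((nb GO u ∩ N).card : ℝ) ≤ (nb G u ∩ C).card + B.card := by exact_mod_cast h2
    nlinarith only [h1, h3, hB4]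
  have hkey := hnsc C (by
    intro u hu
    rw [hout' u hu]
    have h1 := hlow u hu
    have h2 : ((nb G u ∩ C).card : ℝ) ≤ (nb G u).card := by
      exact_mod_cast card_le_card inter_subset_left
    nlinarith only [h1, h2, hg, hdR]) (by
    have h1 : C.card ≤ d := (card_le_card (hC ▸ sdiff_subset)).trans hNd
    have h2 : (C.card : ℝ) ≤ d := by exact_mod_cast h1
    nlinarith only [h2, hg, hdR])
  have hup : ∑ u ∈ C, ((nb (Gout G Ys) u \ C).card : ℝ) ≤ ∑ _u ∈ C, (g / 2 * d) := by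
    refine sum_le_sum fun u hu => ?_
    rw [hout' u hu]
    have h1 := card_sdiff_add_card_inter (nb G u) C
    have h2 : ((nb G u \ C).card : ℝ) + (nb G u ∩ C).card ≤ d := by
      have : (nb G u \ C).card + (nb G u ∩ C).card ≤ d := by rw [h1]; exact hdeg u
      exact_mod_cast this
    have h3 := hlow u hu
    linarith
  rw [sum_const, nsmul_eq_mul] at hup
  have hCR : (0 : ℝ) < C.card := by exact_mod_cast hC0
  have h1 : 0 < g * d * C.card := by positivity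
  nlinarith only [hkey, hup, h1]

/-- conflicts of the big vertices of the light parts of the spots in `Yr` -/
def CfG (G : SimpleGraph V) (e0 : ℝ) (O L : Finset V) (Yr : Finset (Finset V)) :
    SimpleGraph V where
  Adj w w' := w ≠ w' ∧ w ∈ O ∧ w' ∈ O ∧ ∃ Y ∈ Yr, e0 ≤ ((nb G w ∩ (Y ∩ L)).card : ℝ) ∧
    e0 ≤ ((nb G w' ∩ (Y ∩ L)).card : ℝ)
  symm := ⟨fun _ _ h => ⟨h.1.symm, h.2.2.1, h.2.1,
    let ⟨Y, hY, h1, h2⟩ := h.2.2.2; ⟨Y, hY, h2, h1⟩⟩⟩
  loopless := ⟨fun _ h => h.1 rfl⟩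

/-- the spots are disjoint: the number of spots with many neighbours of `w` -/
theorem num_big {G : SimpleGraph V} {d : ℕ} {e0 : ℝ} {Yr : Finset (Finset V)}
    (hdeg : ∀ v, (nb G v).card ≤ d)
    (hdis : ∀ Y ∈ Yr, ∀ Y' ∈ Yr, Y ≠ Y' → Disjoint Y Y') (L : Finset V) (w : V) :
    ((Yr.filter (fun Y => e0 ≤ ((nb G w ∩ (Y ∩ L)).card : ℝ))).card : ℝ) * e0 ≤ d := by
  obtain ⟨S, hS⟩ : ∃ S, S = Yr.filter (fun Y => e0 ≤ ((nb G w ∩ (Y ∩ L)).card : ℝ)) :=
    ⟨_, rfl⟩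
  rw [← hS]
  have hSm : ∀ Y ∈ S, Y ∈ Yr ∧ e0 ≤ ((nb G w ∩ (Y ∩ L)).card : ℝ) := by
    intro Y hY
    rwa [hS, mem_filter] at hY
  have h1 : (S.card : ℝ) * e0 ≤ ∑ Y ∈ S, ((nb G w ∩ (Y ∩ L)).card : ℝ) := by
    have h2 := sum_le_sum (s := S) (f := fun _ => e0)
      (g := fun Y => ((nb G w ∩ (Y ∩ L)).card : ℝ)) (fun Y hY => (hSm Y hY).2)
    rwa [sum_const, nsmul_eq_mul] at h2
  have h3 : ∑ Y ∈ S, (nb G w ∩ (Y ∩ L)).card = (S.biUnion (fun Y => nb G w ∩ (Y ∩ L))).card := by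
    rw [card_biUnion]
    intro Y hY Y' hY' hne
    exact (hdis Y (hSm Y hY).1 Y' (hSm Y' hY').1 hne).mono
      (inter_subset_right.trans inter_subset_left) (inter_subset_right.trans inter_subset_left)
  have h4 : (S.biUnion (fun Y => nb G w ∩ (Y ∩ L))).card ≤ d := by
    refine le_trans (card_le_card ?_) (hdeg w)
    intro x hx
    rw [mem_biUnion] at hx
    obtain ⟨Y, -, hx⟩ := hx
    exact (mem_inter.mp hx).1
  have h5 : ∑ Y ∈ S, ((nb G w ∩ (Y ∩ L)).card : ℝ) ≤ d := by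
    have : ∑ Y ∈ S, (nb G w ∩ (Y ∩ L)).card ≤ d := h3 ▸ h4
    exact_mod_cast this
  linarith

/-- total outer weight at the light part of a spot -/
theorem wt_le {G : SimpleGraph V} {d : ℕ} (hdeg : ∀ v, (nb G v).card ≤ d) (Y L W : Finset V)
    (hW : Disjoint W Y) : ∑ w ∈ W, ((nb G w ∩ (Y ∩ L)).card : ℝ) ≤ tl G d L Y := by
  rw [dblR]
  unfold tl
  refine sum_le_sum fun s _ => ?_
  have h1 : (nb G s ∩ W).card + (nb G s ∩ Y).card ≤ d := by
    rw [← card_union_of_disjoint (hW.mono inter_subset_right inter_subset_right)]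
    refine (card_le_card ?_).trans (hdeg s)
    exact union_subset inter_subset_left inter_subset_left
  have h2 : ((nb G s ∩ W).card : ℝ) + (nb G s ∩ Y).card ≤ d := by exact_mod_cast h1
  linarith

/-- degrees of the conflict graph -/
theorem card_CfG {G : SimpleGraph V} {d : ℕ} {e0 η : ℝ} {O : Finset V} {Yr : Finset (Finset V)}
    (L : Finset V) (he0 : 0 < e0) (hη : 0 ≤ η) (hdeg : ∀ v, (nb G v).card ≤ d)
    (hdis : ∀ Y ∈ Yr, ∀ Y' ∈ Yr, Y ≠ Y' → Disjoint Y Y') (hO : ∀ Y ∈ Yr, Disjoint O Y)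
    (hYd : ∀ Y ∈ Yr, Y.card ≤ d) (htw : ∀ Y ∈ Yr, tl G d L Y ≤ η * d * (Y ∩ L).card) (w : V) :
    ((nb (CfG G e0 O L Yr) w).card : ℝ) * e0 ^ 2 ≤ η * (d : ℝ) ^ 3 := by
  obtain ⟨S, hS⟩ : ∃ S, S = Yr.filter (fun Y => e0 ≤ ((nb G w ∩ (Y ∩ L)).card : ℝ)) :=
    ⟨_, rfl⟩
  have hSm : ∀ Y ∈ S, Y ∈ Yr := by
    intro Y hY
    rw [hS, mem_filter] at hY
    exact hY.1
  have hsub : nb (CfG G e0 O L Yr) w ⊆
      S.biUnion (fun Y => O.filter (fun w' => e0 ≤ ((nb G w' ∩ (Y ∩ L)).card : ℝ))) := by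
    intro x hx
    rw [mem_nb] at hx
    obtain ⟨-, -, hxO, Y, hY, h1, h2⟩ := hx
    rw [mem_biUnion]
    exact ⟨Y, by rw [hS, mem_filter]; exact ⟨hY, h1⟩, mem_filter.mpr ⟨hxO, h2⟩⟩
  have h1 : ∀ Y ∈ S, ((O.filter (fun w' => e0 ≤ ((nb G w' ∩ (Y ∩ L)).card : ℝ))).card : ℝ) *
      e0 ≤ η * (d : ℝ) ^ 2 := by
    intro Y hY
    have hYr := hSm Y hY
    have h2 : ((O.filter (fun w' => e0 ≤ ((nb G w' ∩ (Y ∩ L)).card : ℝ))).card : ℝ) * e0 ≤
        ∑ w' ∈ O, ((nb G w' ∩ (Y ∩ L)).card : ℝ) := by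
      have h3 := sum_le_sum (s := O.filter (fun w' => e0 ≤ ((nb G w' ∩ (Y ∩ L)).card : ℝ)))
        (f := fun _ => e0) (g := fun w' => ((nb G w' ∩ (Y ∩ L)).card : ℝ))
        (fun w' hw' => (mem_filter.mp hw').2)
      rw [sum_const, nsmul_eq_mul] at h3
      refine h3.trans (sum_le_sum_of_subset_of_nonneg (filter_subset _ _) ?_)
      intro _ _ _
      positivity
    have h4 := wt_le hdeg Y L O (hO Y hYr)
    have h5 := htw Y hYr
    have h6 : η * d * ((Y ∩ L).card : ℝ) ≤ η * d * d := by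
      apply mul_le_mul_of_nonneg_left _ (by positivity)
      exact_mod_cast (card_le_card inter_subset_left).trans (hYd Y hYr)
    calc _ ≤ _ := h2
      _ ≤ _ := h4
      _ ≤ _ := h5
      _ ≤ _ := h6
      _ = η * (d : ℝ) ^ 2 := by ring
  have h2 : ((nb (CfG G e0 O L Yr) w).card : ℝ) * e0 ≤ (S.card : ℝ) * (η * (d : ℝ) ^ 2) := by
    have h3 := (card_le_card hsub).trans card_biUnion_le
    have h4 : ((nb (CfG G e0 O L Yr) w).card : ℝ) ≤
        ∑ Y ∈ S, ((O.filter (fun w' => e0 ≤ ((nb G w' ∩ (Y ∩ L)).card : ℝ))).card : ℝ) := by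
      exact_mod_cast h3
    calc ((nb (CfG G e0 O L Yr) w).card : ℝ) * e0 ≤
        (∑ Y ∈ S, ((O.filter (fun w' => e0 ≤ ((nb G w' ∩ (Y ∩ L)).card : ℝ))).card : ℝ)) * e0 :=
          mul_le_mul_of_nonneg_right h4 he0.le
      _ = ∑ Y ∈ S, ((O.filter (fun w' => e0 ≤ ((nb G w' ∩ (Y ∩ L)).card : ℝ))).card : ℝ) * e0 :=
          sum_mul _ _ _
      _ ≤ ∑ _Y ∈ S, η * (d : ℝ) ^ 2 := sum_le_sum h1
      _ = (S.card : ℝ) * (η * (d : ℝ) ^ 2) := by rw [sum_const, nsmul_eq_mul]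
  have h3 := num_big (e0 := e0) hdeg hdis L w
  rw [← hS] at h3
  have h4 := mul_le_mul_of_nonneg_right h2 he0.le
  have h5 := mul_le_mul_of_nonneg_left h3 (by positivity : 0 ≤ η * (d : ℝ) ^ 2)
  nlinarith only [h4, h5]

end Pool.Agent.Work.MP_db9399_vt.helper94
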